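import Mathlib

/-!
Biased product measure on the finite cube `F.powerset` (configuration = finset of open bits).
-/

namespace Pool.Agent.H47.QCC

open Finset

variable {E : Type*} [DecidableEq E]

/-- Expectation of `f` when every bit of `F` is open (belongs to the configuration) independently
with probability `p`. -/
noncomputable def ex (F : Finset E) (p : ℝ) (f : Finset E → ℝ) : ℝ :=
  ∑ S ∈ F.powerset, p ^ S.card * (1 - p) ^ (F \ S).card * f S

/-- Discrete derivative in the bit `e`. -/
def dd (e : E) (f : Finset E → ℝ) (S : Finset E) : ℝ := f (insert e S) - f (S.erase e)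

/-- Average over the bit `e`. -/
def av (p : ℝ) (e : E) (f : Finset E → ℝ) (S : Finset E) : ℝ :=
  p * f (insert e S) + (1 - p) * f (S.erase e)

theorem ex_empty (p : ℝ) (f : Finset E → ℝ) : ex ∅ p f = f ∅ := by
  simp [ex]

theorem ex_insert {F : Finset E} {e : E} (he : e ∉ F) (p : ℝ) (f : Finset E → ℝ) :
    ex (insert e F) p f =
      p * ex F p (fun S => f (insert e S)) + (1 - p) * ex F p (fun S => f (S.erase e)) := by
  unfold ex
  rw [Finset.sum_powerset_insert he, add_comm, Finset.mul_sum, Finset.mul_sum]
  congr 1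
  · apply Finset.sum_congr rfl
    intro S hS
    have heS : e ∉ S := fun h => he (Finset.mem_powerset.mp hS h)
    have h1 : (insert e F) \ (insert e S) = F \ S := by
      ext x
      simp only [Finset.mem_sdiff, Finset.mem_insert, not_or]
      constructor
      · rintro ⟨h1 | h1, h2, h3⟩
        · exact absurd h1 h2
        · exact ⟨h1, h3⟩
      · rintro ⟨h1, h2⟩
        exact ⟨Or.inr h1, fun h => he (h ▸ h1), h2⟩
    rw [Finset.card_insert_of_notMem heS, h1]
    ring
  · apply Finset.sum_congr rfl
    intro S hS
    have heS : e ∉ S := fun h => he (Finset.mem_powerset.mp hS h)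
    have h1 : ((insert e F) \ S).card = (F \ S).card + 1 := by
      rw [Finset.insert_sdiff_of_notMem _ heS, Finset.card_insert_of_notMem]
      intro h
      exact he (Finset.mem_sdiff.mp h).1
    simp only [Finset.erase_eq_of_notMem heS]
    rw [h1]
    ring

theorem ex_add (F : Finset E) (p : ℝ) (f g : Finset E → ℝ) :
    ex F p (fun S => f S + g S) = ex F p f + ex F p g := by
  unfold ex
  rw [← Finset.sum_add_distrib]
  exact Finset.sum_congr rfl fun S _ => by ring

theorem ex_sub (F : Finset E) (p : ℝ) (f g : Finset E → ℝ) :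
    ex F p (fun S => f S - g S) = ex F p f - ex F p g := by
  unfold ex
  rw [← Finset.sum_sub_distrib]
  exact Finset.sum_congr rfl fun S _ => by ring

theorem ex_smul (F : Finset E) (p c : ℝ) (f : Finset E → ℝ) :
    ex F p (fun S => c * f S) = c * ex F p f := by
  unfold ex
  rw [Finset.mul_sum]
  exact Finset.sum_congr rfl fun S _ => by ring

theorem ex_sum {ι : Type*} (I : Finset ι) (F : Finset E) (p : ℝ) (f : ι → Finset E → ℝ) :
    ex F p (fun S => ∑ i ∈ I, f i S) = ∑ i ∈ I, ex F p (f i) := by
  unfold ex
  rw [Finset.sum_comm]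
  exact Finset.sum_congr rfl fun S _ => by rw [Finset.mul_sum]

theorem ex_one (F : Finset E) (p : ℝ) : ex F p (fun _ => 1) = 1 := by
  induction F using Finset.induction_on with
  | empty => simp [ex_empty]
  | insert e F he ih =>
    rw [ex_insert he, ih]; ring

theorem ex_const (F : Finset E) (p c : ℝ) : ex F p (fun _ => c) = c := by
  have := ex_smul F p c (fun _ => 1)
  simp only [mul_one] at this
  rw [this, ex_one, mul_one]

theorem ex_congr {F : Finset E} {p : ℝ} {f g : Finset E → ℝ} (h : ∀ S ⊆ F, f S = g S) :
    ex F p f = ex F p g := by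
  unfold ex
  exact Finset.sum_congr rfl fun S hS => by rw [h S (Finset.mem_powerset.mp hS)]

theorem ex_mono {F : Finset E} {p : ℝ} (h0 : 0 ≤ p) (h1 : p ≤ 1) {f g : Finset E → ℝ}
    (h : ∀ S ⊆ F, f S ≤ g S) : ex F p f ≤ ex F p g := by
  unfold ex
  refine Finset.sum_le_sum fun S hS => ?_
  have := h S (Finset.mem_powerset.mp hS)
  have h2 : 0 ≤ p ^ S.card * (1 - p) ^ (F \ S).card :=
    mul_nonneg (pow_nonneg h0 _) (pow_nonneg (by linarith) _)
  exact mul_le_mul_of_nonneg_left this h2

theorem ex_nonneg {F : Finset E} {p : ℝ} (h0 : 0 ≤ p) (h1 : p ≤ 1) {f : Finset E → ℝ}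
    (h : ∀ S ⊆ F, 0 ≤ f S) : 0 ≤ ex F p f := by
  have := ex_mono (F := F) h0 h1 (f := fun _ => 0) (g := f) h
  rwa [ex_const] at this

/-- Cauchy-Schwarz. -/
theorem ex_sq_le {F : Finset E} {p : ℝ} (h0 : 0 ≤ p) (h1 : p ≤ 1) (f g : Finset E → ℝ) :
    (ex F p (fun S => f S * g S)) ^ 2 ≤
      ex F p (fun S => f S ^ 2) * ex F p (fun S => g S ^ 2) := by
  unfold ex
  have hw : ∀ S : Finset E, 0 ≤ p ^ S.card * (1 - p) ^ (F \ S).card := fun S =>
    mul_nonneg (pow_nonneg h0 _) (pow_nonneg (by linarith) _)
  have := Finset.sum_mul_sq_le_sq_mul_sq F.powerset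
    (fun S => Real.sqrt (p ^ S.card * (1 - p) ^ (F \ S).card) * f S)
    (fun S => Real.sqrt (p ^ S.card * (1 - p) ^ (F \ S).card) * g S)
  refine le_trans (le_of_eq ?_) (this.trans (le_of_eq ?_))
  · congr 1
    apply Finset.sum_congr rfl
    intro S _
    have h2 := Real.mul_self_sqrt (hw S)
    calc _ = (Real.sqrt (p ^ S.card * (1 - p) ^ (F \ S).card) *
          Real.sqrt (p ^ S.card * (1 - p) ^ (F \ S).card)) * (f S * g S) := by rw [h2]
      _ = _ := by ring
  · congr 1
    · apply Finset.sum_congr rfl
      intro S _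
      rw [mul_pow, Real.sq_sqrt (hw S)]
    · apply Finset.sum_congr rfl
      intro S _
      rw [mul_pow, Real.sq_sqrt (hw S)]

theorem ex_sq_le_sq {F : Finset E} {p : ℝ} (h0 : 0 ≤ p) (h1 : p ≤ 1) (f : Finset E → ℝ) :
    (ex F p f) ^ 2 ≤ ex F p (fun S => f S ^ 2) := by
  have := ex_sq_le (F := F) h0 h1 f (fun _ => 1)
  simpa [ex_const] using this

theorem abs_ex_le {F : Finset E} {p : ℝ} (h0 : 0 ≤ p) (h1 : p ≤ 1) (f : Finset E → ℝ) :
    |ex F p f| ≤ ex F p (fun S => |f S|) := by
  rw [abs_le]
  constructor
  · have := ex_mono (F := F) h0 h1 (f := fun S => - |f S|) (g := f) fun S _ => neg_abs_le _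
    have h2 : ex F p (fun S => -|f S|) = - ex F p (fun S => |f S|) := by
      have := ex_smul F p (-1) (fun S => |f S|)
      simpa using this
    linarith
  · exact ex_mono h0 h1 fun S _ => le_abs_self _

/-- Expectation does not change when irrelevant bits are added. -/
theorem ex_superset {F G : Finset E} (hFG : F ⊆ G) (p : ℝ) (f : Finset E → ℝ)
    (h : ∀ S, f S = f (S ∩ F)) : ex G p f = ex F p f := by
  induction G using Finset.induction_on generalizing F f with
  | empty =>
    have : F = ∅ := Finset.subset_empty.mp hFG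
    subst this
    rfl
  | insert e G he ih =>
    by_cases heF : e ∈ F
    · -- e is relevant
      obtain ⟨F', hF', heF'⟩ : ∃ F', F = insert e F' ∧ e ∉ F' :=
        ⟨F.erase e, (Finset.insert_erase heF).symm, Finset.notMem_erase e F⟩
      subst hF'
      have hFG' : F' ⊆ G := fun x hx => by
        rcases Finset.mem_insert.mp (hFG (Finset.mem_insert_of_mem hx)) with h1 | h1
        · exact absurd (h1 ▸ hx) heF'
        · exact h1
      rw [ex_insert he, ex_insert heF', ih hFG' (fun S => f (insert e S)),
        ih hFG' (fun S => f (S.erase e))]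
      · intro S
        show f (S.erase e) = f ((S ∩ F').erase e)
        rw [h (S.erase e), h ((S ∩ F').erase e)]
        congr 1
        ext x; simp only [Finset.mem_inter, Finset.mem_erase, Finset.mem_insert]; tauto
      · intro S
        show f (insert e S) = f (insert e (S ∩ F'))
        rw [h (insert e S), h (insert e (S ∩ F'))]
        congr 1
        ext x; simp only [Finset.mem_inter, Finset.mem_insert]; tauto
    · have hFG' : F ⊆ G := fun x hx => by
        rcases Finset.mem_insert.mp (hFG hx) with h1 | h1
        · exact absurd (h1 ▸ hx) heF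
        · exact h1
      rw [ex_insert he, ih hFG' (fun S => f (insert e S)), ih hFG' (fun S => f (S.erase e))]
      · have h1 : ex F p (fun S => f (insert e S)) = ex F p f := ex_congr fun S hS => by
          show f (insert e S) = f S
          rw [h (insert e S), h S, Finset.insert_inter_of_notMem heF]
        have h2 : ex F p (fun S => f (S.erase e)) = ex F p f := ex_congr fun S hS => by
          have : e ∉ S := fun h => heF (hS h)
          show f (S.erase e) = f S
          rw [Finset.erase_eq_of_notMem this]
        rw [h1, h2]; ring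
      · intro S
        show f (S.erase e) = f ((S ∩ F).erase e)
        rw [h (S.erase e), h ((S ∩ F).erase e)]
        congr 1
        ext x; simp only [Finset.mem_inter, Finset.mem_erase]; tauto
      · intro S
        show f (insert e S) = f (insert e (S ∩ F))
        rw [h (insert e S), h (insert e (S ∩ F))]
        congr 1
        ext x; simp only [Finset.mem_inter, Finset.mem_insert]; tauto

end Pool.Agent.H47.QCC
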