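import Mathlib
import Pool.Agent.H47.QCC.Cube

/-!
Russo's formula and the Efron-Stein inequality on the biased cube.
-/

namespace Pool.Agent.H47.QCC

open Finset

variable {E : Type*} [DecidableEq E]

/-- Variance. -/
noncomputable def vr (F : Finset E) (p : ℝ) (f : Finset E → ℝ) : ℝ :=
  ex F p (fun S => f S ^ 2) - (ex F p f) ^ 2

theorem ex_insert' {F : Finset E} {e : E} (he : e ∉ F) (p : ℝ) (f : Finset E → ℝ) :
    ex (insert e F) p f = ex F p (av p e f) := by
  rw [ex_insert he]
  unfold av
  rw [ex_add, ex_smul, ex_smul]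

theorem av_insert (p : ℝ) (e : E) (f : Finset E → ℝ) (S : Finset E) :
    av p e f (insert e S) = av p e f S := by
  unfold av
  rw [Finset.insert_idem, Finset.erase_insert_eq_erase]

theorem av_erase (p : ℝ) (e : E) (f : Finset E → ℝ) (S : Finset E) :
    av p e f (S.erase e) = av p e f S := by
  unfold av
  rw [Finset.erase_idem]
  congr 3
  ext x; simp only [Finset.mem_insert, Finset.mem_erase]; tauto

theorem dd_insert (e : E) (f : Finset E → ℝ) (S : Finset E) :
    dd e f (insert e S) = dd e f S := by
  unfold dd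
  rw [Finset.insert_idem, Finset.erase_insert_eq_erase]

theorem dd_erase (e : E) (f : Finset E → ℝ) (S : Finset E) :
    dd e f (S.erase e) = dd e f S := by
  unfold dd
  rw [Finset.erase_idem]
  congr 2
  ext x; simp only [Finset.mem_insert, Finset.mem_erase]; tauto

theorem dd_av {e j : E} (hej : e ≠ j) (p : ℝ) (f : Finset E → ℝ) (S : Finset E) :
    dd j (av p e f) S = av p e (dd j f) S := by
  unfold dd av
  have h1 : insert e (insert j S) = insert j (insert e S) := by
    ext x; simp only [Finset.mem_insert]; tauto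
  have h2 : (insert j S).erase e = insert j (S.erase e) := by
    ext x
    simp only [Finset.mem_insert, Finset.mem_erase]
    constructor
    · rintro ⟨h1, h2 | h2⟩
      · exact Or.inl h2
      · exact Or.inr ⟨h1, h2⟩
    · rintro (h | ⟨h1, h2⟩)
      · exact ⟨fun h3 => hej (h3 ▸ h), Or.inl h⟩
      · exact ⟨h1, Or.inr h2⟩
  have h3 : (insert e S).erase j = insert e (S.erase j) := by
    ext x
    simp only [Finset.mem_insert, Finset.mem_erase]
    constructor
    · rintro ⟨h1, h2 | h2⟩
      · exact Or.inl h2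
      · exact Or.inr ⟨h1, h2⟩
    · rintro (h | ⟨h1, h2⟩)
      · exact ⟨fun h3 => hej (h ▸ h3), Or.inl h⟩
      · exact ⟨h1, Or.inr h2⟩
  have h4 : (S.erase j).erase e = (S.erase e).erase j := Finset.erase_right_comm
  simp only [h1, h2, h3, h4]
  ring

theorem dd_comp_insert {e j : E} (hej : e ≠ j) (f : Finset E → ℝ) (S : Finset E) :
    dd j (fun T => f (insert e T)) S = dd j f (insert e S) := by
  unfold dd
  have h1 : insert e (insert j S) = insert j (insert e S) := by
    ext x; simp only [Finset.mem_insert]; tauto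
  have h3 : (insert e S).erase j = insert e (S.erase j) := by
    ext x
    simp only [Finset.mem_insert, Finset.mem_erase]
    constructor
    · rintro ⟨h1, h2 | h2⟩
      · exact Or.inl h2
      · exact Or.inr ⟨h1, h2⟩
    · rintro (h | ⟨h1, h2⟩)
      · exact ⟨fun h3 => hej (h ▸ h3), Or.inl h⟩
      · exact ⟨h1, Or.inr h2⟩
  simp only [h1, h3]

theorem dd_comp_erase {e j : E} (hej : e ≠ j) (f : Finset E → ℝ) (S : Finset E) :
    dd j (fun T => f (T.erase e)) S = dd j f (S.erase e) := by
  unfold dd
  have h2 : (insert j S).erase e = insert j (S.erase e) := by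
    ext x
    simp only [Finset.mem_insert, Finset.mem_erase]
    constructor
    · rintro ⟨h1, h2 | h2⟩
      · exact Or.inl h2
      · exact Or.inr ⟨h1, h2⟩
    · rintro (h | ⟨h1, h2⟩)
      · exact ⟨fun h3 => hej (h3 ▸ h), Or.inl h⟩
      · exact ⟨h1, Or.inr h2⟩
  have h4 : (S.erase j).erase e = (S.erase e).erase j := Finset.erase_right_comm
  simp only [h2, h4]

/-- **Russo's formula.** -/
theorem russo (F : Finset E) (f : Finset E → ℝ) (p : ℝ) :
    HasDerivAt (fun q => ex F q f) (∑ e ∈ F, ex F p (dd e f)) p := by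
  induction F using Finset.induction_on generalizing f with
  | empty => simpa [ex_empty] using hasDerivAt_const p (f ∅)
  | insert e F he ih =>
    have h1 := ih (fun S => f (insert e S))
    have h2 := ih (fun S => f (S.erase e))
    have h3 : HasDerivAt (fun q : ℝ => q) 1 p := hasDerivAt_id p
    have h4 : HasDerivAt (fun q : ℝ => 1 - q) (-1) p := by
      have h4' := (hasDerivAt_const p (1 : ℝ)).fun_sub h3
      exact h4'.congr_deriv (by norm_num)
    have h5 := (h3.mul h1).add (h4.mul h2)
    have h6 : (fun q => ex (insert e F) q f) = fun q : ℝ =>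
        q * ex F q (fun S => f (insert e S)) + (1 - q) * ex F q (fun S => f (S.erase e)) := by
      funext q; exact ex_insert he q f
    rw [h6]
    refine h5.congr_deriv ?_
    rw [Finset.sum_insert he]
    have h7 : ex (insert e F) p (dd e f) =
        ex F p (fun S => f (insert e S)) - ex F p (fun S => f (S.erase e)) := by
      rw [ex_insert he]
      simp only [dd_insert, dd_erase]
      have : ex F p (fun S => dd e f S) =
        ex F p (fun S => f (insert e S)) - ex F p (fun S => f (S.erase e)) := by
        rw [← ex_sub]; rfl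
      rw [this]; ring
    rw [h7]
    have h8 : ∑ j ∈ F, ex (insert e F) p (dd j f) =
        p * ∑ j ∈ F, ex F p (dd j (fun S => f (insert e S))) +
        (1 - p) * ∑ j ∈ F, ex F p (dd j (fun S => f (S.erase e))) := by
      rw [Finset.mul_sum, Finset.mul_sum, ← Finset.sum_add_distrib]
      apply Finset.sum_congr rfl
      intro j hj
      have hej : e ≠ j := fun h => he (h ▸ hj)
      rw [ex_insert he]
      congr 2
      · exact ex_congr fun S _ => (dd_comp_insert hej f S).symm
      · exact ex_congr fun S _ => (dd_comp_erase hej f S).symm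
    rw [h8]
    ring

theorem av_sq_add (p : ℝ) (e : E) (f : Finset E → ℝ) (S : Finset E) :
    av p e (fun T => f T ^ 2) S = (av p e f S) ^ 2 + p * (1 - p) * (dd e f S) ^ 2 := by
  unfold av dd; ring

theorem vr_insert {F : Finset E} {e : E} (he : e ∉ F) (p : ℝ) (f : Finset E → ℝ) :
    vr (insert e F) p f = vr F p (av p e f) +
      p * (1 - p) * ex F p (fun S => dd e f S ^ 2) := by
  unfold vr
  rw [ex_insert' he, ex_insert' he]
  have : ex F p (av p e (fun S => f S ^ 2)) =
      ex F p (fun S => (av p e f S) ^ 2) + p * (1 - p) * ex F p (fun S => dd e f S ^ 2) := by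
    rw [← ex_smul, ← ex_add]
    exact ex_congr fun S _ => av_sq_add p e f S
  rw [this]; ring

theorem ex_dd_insert {F : Finset E} {e : E} (he : e ∉ F) (p : ℝ) (f : Finset E → ℝ)
    (φ : ℝ → ℝ) :
    ex (insert e F) p (fun S => φ (dd e f S)) = ex F p (fun S => φ (dd e f S)) := by
  rw [ex_insert he]
  simp only [dd_insert, dd_erase]
  ring

theorem ex_dd_av_sq_le {F : Finset E} {e j : E} (he : e ∉ F) (hj : j ∈ F) {p : ℝ}
    (h0 : 0 ≤ p) (h1 : p ≤ 1) (f : Finset E → ℝ) :
    ex F p (fun S => dd j (av p e f) S ^ 2) ≤ ex (insert e F) p (fun S => dd j f S ^ 2) := by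
  have hej : e ≠ j := fun h => he (h ▸ hj)
  rw [ex_insert' he]
  apply ex_mono h0 h1
  intro S _
  rw [dd_av hej, av_sq_add]
  have : 0 ≤ p * (1 - p) * (dd e (dd j f) S) ^ 2 :=
    mul_nonneg (mul_nonneg h0 (by linarith)) (sq_nonneg _)
  linarith

/-- **Efron-Stein inequality.** -/
theorem efron_stein {F : Finset E} {p : ℝ} (h0 : 0 ≤ p) (h1 : p ≤ 1) (f : Finset E → ℝ) :
    vr F p f ≤ p * (1 - p) * ∑ e ∈ F, ex F p (fun S => dd e f S ^ 2) := by
  induction F using Finset.induction_on generalizing f with
  | empty => simp [vr, ex_empty]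
  | insert e F he ih =>
    rw [vr_insert he, Finset.sum_insert he, ex_dd_insert he p f (fun x => x ^ 2)]
    have h2 := ih (av p e f)
    have h3 : ∑ j ∈ F, ex F p (fun S => dd j (av p e f) S ^ 2) ≤
        ∑ j ∈ F, ex (insert e F) p (fun S => dd j f S ^ 2) :=
      Finset.sum_le_sum fun j hj => ex_dd_av_sq_le he hj h0 h1 f
    have h4 : 0 ≤ p * (1 - p) := mul_nonneg h0 (by linarith)
    have h5 := mul_le_mul_of_nonneg_left h3 h4
    nlinarith [h2, h5]

/-- Monotone functions of the configuration. -/
def Mon (f : Finset E → ℝ) : Prop := ∀ S T, S ⊆ T → f S ≤ f T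

theorem Mon.dd_nonneg {f : Finset E → ℝ} (hf : Mon f) (e : E) (S : Finset E) : 0 ≤ dd e f S := by
  unfold dd
  have := hf (S.erase e) (insert e S)
    ((Finset.erase_subset _ _).trans (Finset.subset_insert _ _))
  linarith

theorem Mon.ex_le {f : Finset E → ℝ} (hf : Mon f) (F : Finset E) {p q : ℝ} (hp : 0 ≤ p)
    (hpq : p ≤ q) (hq : q ≤ 1) : ex F p f ≤ ex F q f := by
  have : MonotoneOn (fun q => ex F q f) (Set.Icc 0 1) := by
    apply monotoneOn_of_deriv_nonneg (convex_Icc 0 1)
    · exact fun x _ => (russo F f x).continuousAt.continuousWithinAt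
    · exact fun x _ => (russo F f x).differentiableAt.differentiableWithinAt
    · intro x hx
      rw [interior_Icc] at hx
      rw [(russo F f x).deriv]
      exact Finset.sum_nonneg fun e _ => ex_nonneg hx.1.le hx.2.le fun S _ => hf.dd_nonneg e S
  exact this ⟨hp, hpq.trans hq⟩ ⟨hp.trans hpq, hq⟩ hpq

end Pool.Agent.H47.QCC
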