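import Mathlib
import Pool.Agent.H47.QCC.Basic

/-!
Logarithmic Sobolev inequality on the biased cube and the Falik-Samorodnitsky inequality.
-/

namespace Pool.Agent.H47.QCC

open Finset

variable {E : Type*} [DecidableEq E]

theorem mul_log_le_sq {y : ℝ} (hy : 0 ≤ y) : y * Real.log y ≤ y * (y - 1) := by
  rcases hy.eq_or_lt with h | h
  · rw [← h]; simp
  · exact mul_le_mul_of_nonneg_left (Real.log_le_sub_one_of_pos h) hy

/-- Two point logarithmic Sobolev inequality. -/
theorem two_point {δ p a b : ℝ} (hδ : 0 < δ) (h1 : δ ≤ p) (h2 : p ≤ 1 - δ) (ha : 0 ≤ a)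
    (hb : 0 ≤ b) :
    p * (a ^ 2 * Real.log (a ^ 2)) + (1 - p) * (b ^ 2 * Real.log (b ^ 2)) -
      (p * a ^ 2 + (1 - p) * b ^ 2) * Real.log (p * a ^ 2 + (1 - p) * b ^ 2) ≤
      2 / δ * (a - b) ^ 2 := by
  have hp : 0 < p := hδ.trans_le h1
  have hq : 0 < 1 - p := by linarith
  set t := p * a ^ 2 + (1 - p) * b ^ 2 with ht
  have ht0 : 0 ≤ t := by positivity
  rcases ht0.eq_or_lt with h0 | h0
  · have ha2 : p * a ^ 2 = 0 := by nlinarith [mul_nonneg hp.le (sq_nonneg a), mul_nonneg hq.le (sq_nonneg b)]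
    have hb2 : (1 - p) * b ^ 2 = 0 := by nlinarith [mul_nonneg hp.le (sq_nonneg a), mul_nonneg hq.le (sq_nonneg b)]
    have ha3 : a = 0 := by
      rcases mul_eq_zero.mp ha2 with h | h
      · exact absurd h hp.ne'
      · exact pow_eq_zero_iff (two_ne_zero) |>.mp h
    have hb3 : b = 0 := by
      rcases mul_eq_zero.mp hb2 with h | h
      · exact absurd h hq.ne'
      · exact pow_eq_zero_iff (two_ne_zero) |>.mp h
    rw [← h0, ha3, hb3]; simp
  · set r := Real.sqrt t with hr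
    have hr0 : 0 < r := Real.sqrt_pos.mpr h0
    have hr2 : r ^ 2 = t := Real.sq_sqrt ht0
    have key : ∀ x : ℝ, 0 ≤ x → x ^ 2 ≤ t / δ →
        x ^ 2 * Real.log (x ^ 2) - x ^ 2 * Real.log t - x ^ 2 + t ≤ 4 / δ * (x - r) ^ 2 := by
      intro x hx hx2
      have h3 : x ^ 2 * Real.log (x ^ 2) - x ^ 2 * Real.log t = x ^ 2 * Real.log (x ^ 2 / t) := by
        rcases hx.eq_or_lt with h | h
        · rw [← h]; simp
        · rw [Real.log_div (by positivity) h0.ne']; ring
      have h4 := mul_log_le_sq (y := x ^ 2 / t) (by positivity)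
      have h5 : x ^ 2 * Real.log (x ^ 2 / t) ≤ t * (x ^ 2 / t * (x ^ 2 / t - 1)) := by
        calc x ^ 2 * Real.log (x ^ 2 / t) = t * (x ^ 2 / t * Real.log (x ^ 2 / t)) := by
              field_simp
          _ ≤ _ := mul_le_mul_of_nonneg_left h4 ht0
      have h6 : t * (x ^ 2 / t * (x ^ 2 / t - 1)) - x ^ 2 + t = (x ^ 2 - t) ^ 2 / t := by
        field_simp; ring
      have h7 : (x ^ 2 - t) ^ 2 / t = (x - r) ^ 2 * ((x + r) ^ 2 / t) := by
        rw [← hr2]; field_simp; ring
      have h8 : (x + r) ^ 2 / t ≤ 4 / δ := by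
        rw [div_le_div_iff₀ h0 hδ]
        have h9 : (x + r) ^ 2 ≤ 2 * x ^ 2 + 2 * r ^ 2 := by nlinarith [sq_nonneg (x - r)]
        have h10 : x ^ 2 * δ ≤ t := by rwa [le_div_iff₀ hδ] at hx2
        have h11 : δ ≤ 1 := by linarith
        have h12 : r ^ 2 * δ ≤ t := by rw [hr2]; nlinarith
        nlinarith
      have h9 : (x - r) ^ 2 * ((x + r) ^ 2 / t) ≤ (x - r) ^ 2 * (4 / δ) :=
        mul_le_mul_of_nonneg_left h8 (sq_nonneg _)
      rw [h3]
      nlinarith
    have ha1 : a ^ 2 ≤ t / δ := by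
      rw [le_div_iff₀ hδ]
      have : a ^ 2 * δ ≤ p * a ^ 2 := by nlinarith [sq_nonneg a]
      have : 0 ≤ (1 - p) * b ^ 2 := by positivity
      linarith
    have hb1 : b ^ 2 ≤ t / δ := by
      rw [le_div_iff₀ hδ]
      have : b ^ 2 * δ ≤ (1 - p) * b ^ 2 := by nlinarith [sq_nonneg b]
      have : 0 ≤ p * a ^ 2 := by positivity
      linarith
    have k1 := mul_le_mul_of_nonneg_left (key a ha ha1) hp.le
    have k2 := mul_le_mul_of_nonneg_left (key b hb hb1) hq.le
    -- the second moment around r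
    set m := p * a + (1 - p) * b with hm
    have hm0 : 0 ≤ m := by positivity
    have hmr : m ≤ r := by
      apply Real.le_sqrt_of_sq_le
      have : t - m ^ 2 = p * (1 - p) * (a - b) ^ 2 := by rw [ht, hm]; ring
      have h3 : 0 ≤ p * (1 - p) * (a - b) ^ 2 := by positivity
      linarith
    have k3 : p * (a - r) ^ 2 + (1 - p) * (b - r) ^ 2 ≤ 2 * (p * (1 - p)) * (a - b) ^ 2 := by
      have e1 : p * (a - r) ^ 2 + (1 - p) * (b - r) ^ 2 = t - 2 * r * m + r ^ 2 := by
        rw [ht, hm]; ring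
      have e2 : p * (1 - p) * (a - b) ^ 2 = t - m ^ 2 := by rw [ht, hm]; ring
      have e3 : 2 * (p * (1 - p)) * (a - b) ^ 2 = 2 * (t - m ^ 2) := by rw [← e2]; ring
      rw [e1, e3]
      have e5 : 0 ≤ (r - m) * m := mul_nonneg (by linarith) hm0
      have e6 : (r - m) * m = r * m - m ^ 2 := by ring
      have e7 : 2 * r * m = 2 * (r * m) := by ring
      rw [e7]
      linarith
    have k4 : p * (1 - p) ≤ 1 / 4 := by nlinarith [sq_nonneg (p - 1 / 2)]
    have k5 : 4 / δ * (p * (a - r) ^ 2 + (1 - p) * (b - r) ^ 2) ≤ 2 / δ * (a - b) ^ 2 := by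
      have k7 := mul_le_mul_of_nonneg_right k4 (sq_nonneg (a - b))
      have k6 : p * (a - r) ^ 2 + (1 - p) * (b - r) ^ 2 ≤ 1 / 2 * (a - b) ^ 2 := by
        calc p * (a - r) ^ 2 + (1 - p) * (b - r) ^ 2 ≤ 2 * (p * (1 - p)) * (a - b) ^ 2 := k3
          _ = 2 * (p * (1 - p) * (a - b) ^ 2) := by ring
          _ ≤ 2 * (1 / 4 * (a - b) ^ 2) := mul_le_mul_of_nonneg_left k7 (by norm_num)
          _ = 1 / 2 * (a - b) ^ 2 := by ring
      calc 4 / δ * (p * (a - r) ^ 2 + (1 - p) * (b - r) ^ 2) ≤ 4 / δ * (1 / 2 * (a - b) ^ 2) :=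
            mul_le_mul_of_nonneg_left k6 (by positivity)
        _ = _ := by ring
    have e4 : p * (a ^ 2 * Real.log (a ^ 2)) + (1 - p) * (b ^ 2 * Real.log (b ^ 2)) -
        t * Real.log t =
        p * (a ^ 2 * Real.log (a ^ 2) - a ^ 2 * Real.log t - a ^ 2 + t) +
        (1 - p) * (b ^ 2 * Real.log (b ^ 2) - b ^ 2 * Real.log t - b ^ 2 + t) := by
      have : t * Real.log t = p * (a ^ 2 * Real.log t) + (1 - p) * (b ^ 2 * Real.log t) := by
        conv_lhs => rw [ht]
        ring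
      rw [this]
      have e5 : p * (- a ^ 2 + t) + (1 - p) * (- b ^ 2 + t) = 0 := by rw [ht]; ring
      calc _ = p * (a ^ 2 * Real.log (a ^ 2) - a ^ 2 * Real.log t) +
          (1 - p) * (b ^ 2 * Real.log (b ^ 2) - b ^ 2 * Real.log t) + 0 := by ring
        _ = p * (a ^ 2 * Real.log (a ^ 2) - a ^ 2 * Real.log t) +
          (1 - p) * (b ^ 2 * Real.log (b ^ 2) - b ^ 2 * Real.log t) +
          (p * (- a ^ 2 + t) + (1 - p) * (- b ^ 2 + t)) := by rw [e5]
        _ = _ := by ring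
    rw [e4]
    calc _ ≤ p * (4 / δ * (a - r) ^ 2) + (1 - p) * (4 / δ * (b - r) ^ 2) := add_le_add k1 k2
      _ = 4 / δ * (p * (a - r) ^ 2 + (1 - p) * (b - r) ^ 2) := by ring
      _ ≤ _ := k5

/-- Logarithmic Sobolev inequality on the biased cube. -/
theorem log_sob {δ p : ℝ} (hδ : 0 < δ) (h1 : δ ≤ p) (h2 : p ≤ 1 - δ) (F : Finset E)
    (u : Finset E → ℝ) :
    ex F p (fun S => u S ^ 2 * Real.log (u S ^ 2)) -
      ex F p (fun S => u S ^ 2) * Real.log (ex F p (fun S => u S ^ 2)) ≤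
      2 / δ * ∑ j ∈ F, ex F p (fun S => dd j u S ^ 2) := by
  have hp : 0 < p := hδ.trans_le h1
  have hq : 0 < 1 - p := by linarith
  have hp1 : p ≤ 1 := by linarith
  induction F using Finset.induction_on generalizing u with
  | empty => simp [ex_empty]
  | insert e F he ih =>
    have i1 := ih (fun S => u (insert e S))
    have i0 := ih (fun S => u (S.erase e))
    set m1 := ex F p (fun S => u (insert e S) ^ 2) with hm1
    set m0 := ex F p (fun S => u (S.erase e) ^ 2) with hm0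
    have n1 : 0 ≤ m1 := ex_nonneg hp.le hp1 fun S _ => sq_nonneg _
    have n0 : 0 ≤ m0 := ex_nonneg hp.le hp1 fun S _ => sq_nonneg _
    have t1 := two_point hδ h1 h2 (Real.sqrt_nonneg m1) (Real.sqrt_nonneg m0)
    rw [Real.sq_sqrt n1, Real.sq_sqrt n0] at t1
    have t2 : (Real.sqrt m1 - Real.sqrt m0) ^ 2 ≤ ex F p (fun S => dd e u S ^ 2) := by
      have c1 := ex_sq_le (F := F) hp.le hp1 (fun S => u (insert e S)) (fun S => u (S.erase e))
      have c2 : ex F p (fun S => u (insert e S) * u (S.erase e)) ≤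
          Real.sqrt m1 * Real.sqrt m0 := by
        rw [← Real.sqrt_mul n1]
        exact Real.le_sqrt_of_sq_le c1
      have c3 : ex F p (fun S => dd e u S ^ 2) =
          m1 + m0 - 2 * ex F p (fun S => u (insert e S) * u (S.erase e)) := by
        rw [hm1, hm0, ← ex_smul, ← ex_add, ← ex_sub]
        exact ex_congr fun S _ => by unfold dd; ring
      rw [c3]
      have s1 := Real.sq_sqrt n1
      have s0 := Real.sq_sqrt n0
      nlinarith
    rw [ex_insert he p (fun S => u S ^ 2 * Real.log (u S ^ 2)),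
      ex_insert he p (fun S => u S ^ 2), Finset.sum_insert he,
      ex_dd_insert he p u (fun x => x ^ 2)]
    have h8 : ∑ j ∈ F, ex (insert e F) p (fun S => dd j u S ^ 2) =
        p * ∑ j ∈ F, ex F p (fun S => dd j (fun S => u (insert e S)) S ^ 2) +
        (1 - p) * ∑ j ∈ F, ex F p (fun S => dd j (fun S => u (S.erase e)) S ^ 2) := by
      rw [Finset.mul_sum, Finset.mul_sum, ← Finset.sum_add_distrib]
      apply Finset.sum_congr rfl
      intro j hj
      have hej : e ≠ j := fun h => he (h ▸ hj)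
      rw [ex_insert he]
      congr 2
      · exact ex_congr fun S _ => by
          show dd j u (insert e S) ^ 2 = dd j (fun S => u (insert e S)) S ^ 2
          rw [dd_comp_insert hej]
      · exact ex_congr fun S _ => by
          show dd j u (S.erase e) ^ 2 = dd j (fun S => u (S.erase e)) S ^ 2
          rw [dd_comp_erase hej]
    rw [h8]
    have j1 := mul_le_mul_of_nonneg_left i1 hp.le
    have j0 := mul_le_mul_of_nonneg_left i0 hq.le
    have j2 : 2 / δ * (Real.sqrt m1 - Real.sqrt m0) ^ 2 ≤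
        2 / δ * ex F p (fun S => dd e u S ^ 2) :=
      mul_le_mul_of_nonneg_left t2 (by positivity)
    have hδ0 : (0 : ℝ) ≤ 2 / δ := by positivity
    rw [← hm1, ← hm0]
    generalize ex F p (fun S => u (insert e S) ^ 2 * Real.log (u (insert e S) ^ 2)) = X1 at *
    generalize ex F p (fun S => u (S.erase e) ^ 2 * Real.log (u (S.erase e) ^ 2)) = X0 at *
    generalize ∑ j ∈ F, ex F p (fun S => dd j (fun S => u (insert e S)) S ^ 2) = Y1 at *
    generalize ∑ j ∈ F, ex F p (fun S => dd j (fun S => u (S.erase e)) S ^ 2) = Y0 at *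
    generalize ex F p (fun S => dd e u S ^ 2) = Z at *
    nlinarith [j1, j0, j2, t1]

end Pool.Agent.H47.QCC
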