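import Mathlib
import Pool.Agent.H47.QCC.LS

/-!
The Falik-Samorodnitsky inequality on the biased cube.
-/

namespace Pool.Agent.H47.QCC

open Finset

variable {E : Type*} [DecidableEq E]

theorem ptw {x w : ℝ} (hx : 0 ≤ x) (hw : 0 < w) :
    x ^ 2 * (2 - 2 * Real.log w) - 2 / w * x ≤ x ^ 2 * Real.log (x ^ 2) := by
  rcases hx.eq_or_lt with h | h
  · rw [← h]; simp
  · have h1 : Real.log (1 / (x * w)) ≤ 1 / (x * w) - 1 := Real.log_le_sub_one_of_pos (by positivity)
    have h2 : Real.log (1 / (x * w)) = - Real.log x - Real.log w := by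
      rw [one_div, Real.log_inv, Real.log_mul h.ne' hw.ne']; ring
    rw [h2] at h1
    have h3 : Real.log (x ^ 2) = 2 * Real.log x := by rw [Real.log_pow]; norm_num
    rw [h3]
    have h4 : x ^ 2 * (1 / (x * w)) = x / w := by field_simp
    have h5 := mul_le_mul_of_nonneg_left h1 (sq_nonneg x)
    have h6 : 2 / w * x = 2 * (x / w) := by ring
    rw [h6, ← h4]
    nlinarith

/-- Entropy against the ratio of the second and first moments. -/
theorem ent_lower {p : ℝ} (h0 : 0 ≤ p) (h1 : p ≤ 1) (F : Finset E) (V : Finset E → ℝ) (t : ℝ) :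
    t * ex F p (fun S => V S ^ 2) ≤
      (ex F p (fun S => V S ^ 2 * Real.log (V S ^ 2)) -
        ex F p (fun S => V S ^ 2) * Real.log (ex F p (fun S => V S ^ 2))) +
      Real.exp (t - 1) * (ex F p (fun S => |V S|)) ^ 2 := by
  set m := ex F p (fun S => V S ^ 2) with hm
  set s := ex F p (fun S => |V S|) with hs
  have hm0 : 0 ≤ m := ex_nonneg h0 h1 fun S _ => sq_nonneg _
  have hs0 : 0 ≤ s := ex_nonneg h0 h1 fun S _ => abs_nonneg _
  rcases hm0.eq_or_lt with hz | hpos
  · -- everything vanishes
    have hz2 : ex F p (fun S => V S ^ 2 * Real.log (V S ^ 2)) = 0 := by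
      have hz' : ∑ S ∈ F.powerset, p ^ S.card * (1 - p) ^ (F \ S).card * V S ^ 2 = 0 := hz.symm
      have hall := (Finset.sum_eq_zero_iff_of_nonneg (fun S _ =>
        mul_nonneg (mul_nonneg (pow_nonneg h0 _) (pow_nonneg (by linarith) _))
          (sq_nonneg (V S)))).mp hz'
      unfold ex
      apply Finset.sum_eq_zero
      intro S hS
      have := hall S hS
      show p ^ S.card * (1 - p) ^ (F \ S).card * (V S ^ 2 * Real.log (V S ^ 2)) = 0
      rw [← mul_assoc, this, zero_mul]
    rw [hz2, ← hz]
    have : 0 ≤ Real.exp (t - 1) * s ^ 2 := by positivity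
    simp
    positivity
  · have hspos : 0 < s := by
      rcases hs0.eq_or_lt with hz | h
      · exfalso
        have hz' : ∑ S ∈ F.powerset, p ^ S.card * (1 - p) ^ (F \ S).card * |V S| = 0 := hz.symm
        have hall := (Finset.sum_eq_zero_iff_of_nonneg (fun S _ =>
          mul_nonneg (mul_nonneg (pow_nonneg h0 _) (pow_nonneg (by linarith) _))
            (abs_nonneg (V S)))).mp hz'
        have : m = 0 := by
          rw [hm]; unfold ex
          apply Finset.sum_eq_zero
          intro S hS
          have := hall S hS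
          show p ^ S.card * (1 - p) ^ (F \ S).card * V S ^ 2 = 0
          rw [← sq_abs, pow_two, ← mul_assoc, this, zero_mul]
        linarith
      · exact h
    have hw : 0 < s / m := by positivity
    have k1 : m * (2 - 2 * Real.log (s / m)) - 2 / (s / m) * s ≤
        ex F p (fun S => V S ^ 2 * Real.log (V S ^ 2)) := by
      have : m * (2 - 2 * Real.log (s / m)) - 2 / (s / m) * s =
          ex F p (fun S => (2 - 2 * Real.log (s / m)) * V S ^ 2 - (2 / (s / m)) * |V S|) := by
        rw [ex_sub, ex_smul, ex_smul]; ring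
      rw [this]
      apply ex_mono h0 h1
      intro S _
      have := ptw (abs_nonneg (V S)) hw
      rw [sq_abs] at this
      linarith
    have k2 : 2 / (s / m) * s = 2 * m := by field_simp
    have k3 : Real.log (s / m) = Real.log s - Real.log m := Real.log_div hspos.ne' hpos.ne'
    rw [k2, k3] at k1
    -- now m log (m / s^2) >= t m - e^(t-1) s^2
    have k4 : Real.log (s ^ 2 * Real.exp (t - 1) / m) ≤ s ^ 2 * Real.exp (t - 1) / m - 1 :=
      Real.log_le_sub_one_of_pos (by positivity)
    have k5 : Real.log (s ^ 2 * Real.exp (t - 1) / m) = 2 * Real.log s + (t - 1) - Real.log m := by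
      rw [Real.log_div (by positivity) hpos.ne', Real.log_mul (by positivity) (by positivity),
        Real.log_exp, Real.log_pow]
      norm_num
    rw [k5] at k4
    have k6 := mul_le_mul_of_nonneg_left k4 hm0
    have k7 : m * (s ^ 2 * Real.exp (t - 1) / m - 1) = Real.exp (t - 1) * s ^ 2 - m := by
      field_simp
    rw [k7] at k6
    nlinarith

theorem center_sq (p : ℝ) (e : E) (g : Finset E → ℝ) {F : Finset E} (he : e ∉ F) :
    ex (insert e F) p (fun S => (g S - av p e g S) ^ 2) =
      ex (insert e F) p (fun S => g S ^ 2) - ex F p (fun S => av p e g S ^ 2) := by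
  rw [ex_insert' he, ex_insert' he, ← ex_sub]
  apply ex_congr
  intro S _
  show av p e (fun T => (g T - av p e g T) ^ 2) S = av p e (fun T => g T ^ 2) S - av p e g S ^ 2
  have h1 : av p e (fun T => (g T - av p e g T) ^ 2) S =
      p * (g (insert e S) - av p e g S) ^ 2 + (1 - p) * (g (S.erase e) - av p e g S) ^ 2 := by
    show p * (g (insert e S) - av p e g (insert e S)) ^ 2 +
      (1 - p) * (g (S.erase e) - av p e g (S.erase e)) ^ 2 = _
    rw [av_insert, av_erase]
  rw [h1]
  unfold av
  ring

/-- **Falik-Samorodnitsky inequality**, linearised form. -/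
theorem falik_samorodnitsky {δ p : ℝ} (hδ : 0 < δ) (h1 : δ ≤ p) (h2 : p ≤ 1 - δ) (F : Finset E)
    (f : Finset E → ℝ) (t : ℝ) :
    t * vr F p f ≤ 2 / δ * ∑ e ∈ F, ex F p (fun S => dd e f S ^ 2) +
      Real.exp (t - 1) * ∑ e ∈ F, (ex F p (fun S => |dd e f S|)) ^ 2 := by
  have hp : 0 < p := hδ.trans_le h1
  have hq : 0 < 1 - p := by linarith
  have hp1 : p ≤ 1 := by linarith
  induction F using Finset.induction_on generalizing f with
  | empty => simp [vr, ex_empty]
  | insert e F he ih =>
    have i1 := ih (av p e f)
    rw [vr_insert he]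
    set V : Finset E → ℝ := fun S => f S - av p e f S with hV
    have a1 := ent_lower hp.le hp1 (insert e F) V t
    have a2 := log_sob hδ h1 h2 (insert e F) V
    -- second moment of V
    have b1 : ex (insert e F) p (fun S => V S ^ 2) =
        p * (1 - p) * ex F p (fun S => dd e f S ^ 2) := by
      have c1 := center_sq p e f he
      have c2 : ex (insert e F) p (fun S => f S ^ 2) =
          ex F p (fun S => (av p e f S) ^ 2) + p * (1 - p) * ex F p (fun S => dd e f S ^ 2) := by
        rw [ex_insert' he, ← ex_smul, ← ex_add]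
        exact ex_congr fun S _ => av_sq_add p e f S
      rw [hV, c1, c2]; ring
    -- first moment of V
    have b2 : ex (insert e F) p (fun S => |V S|) =
        2 * (p * (1 - p)) * ex (insert e F) p (fun S => |dd e f S|) := by
      rw [ex_dd_insert he p f (fun x => |x|), ex_insert' he, ← ex_smul]
      apply ex_congr
      intro S _
      show p * |V (insert e S)| + (1 - p) * |V (S.erase e)| = 2 * (p * (1 - p)) * |dd e f S|
      have e1 : V (insert e S) = (1 - p) * dd e f S := by
        rw [hV]; show f (insert e S) - av p e f (insert e S) = _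
        rw [av_insert]; unfold av dd; ring
      have e2 : V (S.erase e) = - (p * dd e f S) := by
        rw [hV]; show f (S.erase e) - av p e f (S.erase e) = _
        rw [av_erase]; unfold av dd; ring
      rw [e1, e2, abs_neg, abs_mul, abs_mul, abs_of_pos hp, abs_of_pos hq]
      ring
    have b3 : (ex (insert e F) p (fun S => |V S|)) ^ 2 ≤
        (ex (insert e F) p (fun S => |dd e f S|)) ^ 2 := by
      have n1 : 0 ≤ ex (insert e F) p (fun S => |dd e f S|) :=
        ex_nonneg hp.le hp1 fun S _ => abs_nonneg _
      have n2 : 2 * (p * (1 - p)) ≤ 1 := by nlinarith [sq_nonneg (p - 1 / 2)]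
      have n3 : 0 ≤ 2 * (p * (1 - p)) := by positivity
      rw [b2]
      apply pow_le_pow_left₀ (mul_nonneg n3 n1)
      calc _ ≤ 1 * ex (insert e F) p (fun S => |dd e f S|) := mul_le_mul_of_nonneg_right n2 n1
        _ = _ := one_mul _
    -- Dirichlet form splits
    have b4 : ∑ j ∈ insert e F, ex (insert e F) p (fun S => dd j V S ^ 2) +
        ∑ j ∈ F, ex F p (fun S => dd j (av p e f) S ^ 2) =
        ∑ j ∈ insert e F, ex (insert e F) p (fun S => dd j f S ^ 2) := by
      rw [Finset.sum_insert he, Finset.sum_insert he, add_assoc, ← Finset.sum_add_distrib]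
      congr 1
      · apply ex_congr
        intro S _
        show dd e V S ^ 2 = dd e f S ^ 2
        congr 1
        show (f (insert e S) - av p e f (insert e S)) - (f (S.erase e) - av p e f (S.erase e)) = _
        rw [av_insert, av_erase]; unfold dd; ring
      · apply Finset.sum_congr rfl
        intro j hj
        have hej : e ≠ j := fun h => he (h ▸ hj)
        have c1 := center_sq p e (dd j f) he
        have c2 : ex (insert e F) p (fun S => dd j V S ^ 2) =
            ex (insert e F) p (fun S => (dd j f S - av p e (dd j f) S) ^ 2) := by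
          apply ex_congr
          intro S _
          show dd j V S ^ 2 = (dd j f S - av p e (dd j f) S) ^ 2
          rw [← dd_av hej]
          congr 1
          show (f (insert j S) - av p e f (insert j S)) - (f (S.erase j) - av p e f (S.erase j)) = _
          unfold dd; ring
        have c3 : ex F p (fun S => dd j (av p e f) S ^ 2) =
            ex F p (fun S => av p e (dd j f) S ^ 2) :=
          ex_congr fun S _ => by
            show dd j (av p e f) S ^ 2 = av p e (dd j f) S ^ 2
            rw [dd_av hej]
        rw [c2, c1, c3]; ring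
    have b5 : ∑ j ∈ F, (ex F p (fun S => |dd j (av p e f) S|)) ^ 2 ≤
        ∑ j ∈ F, (ex (insert e F) p (fun S => |dd j f S|)) ^ 2 := by
      apply Finset.sum_le_sum
      intro j hj
      have hej : e ≠ j := fun h => he (h ▸ hj)
      apply pow_le_pow_left₀ (ex_nonneg hp.le hp1 fun S _ => abs_nonneg _)
      rw [ex_insert' he]
      apply ex_mono hp.le hp1
      intro S _
      rw [dd_av hej]
      unfold av
      calc _ ≤ |p * dd j f (insert e S)| + |(1 - p) * dd j f (S.erase e)| := abs_add_le _ _
        _ = _ := by rw [abs_mul, abs_mul, abs_of_pos hp, abs_of_pos hq]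
    rw [Finset.sum_insert (f := fun j => (ex (insert e F) p (fun S => |dd j f S|)) ^ 2) he]
    have hexp : 0 < Real.exp (t - 1) := Real.exp_pos _
    have hδ0 : (0 : ℝ) < 2 / δ := by positivity
    have d1 := mul_le_mul_of_nonneg_left b3 hexp.le
    have d2 := mul_le_mul_of_nonneg_left b5 hexp.le
    have d3 : 2 / δ * (∑ j ∈ insert e F, ex (insert e F) p (fun S => dd j V S ^ 2)) +
        2 / δ * (∑ j ∈ F, ex F p (fun S => dd j (av p e f) S ^ 2)) =
        2 / δ * ∑ j ∈ insert e F, ex (insert e F) p (fun S => dd j f S ^ 2) := by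
      rw [← mul_add, b4]
    have d4 : t * ex (insert e F) p (fun S => V S ^ 2) =
        t * (p * (1 - p) * ex F p (fun S => dd e f S ^ 2)) := by rw [b1]
    rw [mul_add, mul_add, ← d4]
    linarith

end Pool.Agent.H47.QCC
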