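import Mathlib
import Pool.Agent.H47.QCC.FS

/-!
Sharp threshold lemma (with ramps) on the biased cube.
-/

namespace Pool.Agent.H47.QCC

open Finset

variable {E : Type*} [DecidableEq E]

set_option linter.unusedSectionVars false

/-- Probability of an event (a predicate on configurations). -/
noncomputable def pr (F : Finset E) (p : ℝ) (A : Finset E → Prop) : ℝ := by
  classical exact ex F p (fun S => if A S then 1 else 0)

/-- Ramp from `b - ε` (value 0) to `b` (value 1). -/
noncomputable def ramp (b ε : ℝ) (g : Finset E → ℝ) (S : Finset E) : ℝ :=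
  min 1 (max 0 ((g S - (b - ε)) / ε))

theorem pr_nonneg {F : Finset E} {p : ℝ} (h0 : 0 ≤ p) (h1 : p ≤ 1) (A : Finset E → Prop) :
    0 ≤ pr F p A := by
  classical
  unfold pr
  exact ex_nonneg h0 h1 fun S _ => by split_ifs <;> norm_num

theorem pr_le_one {F : Finset E} {p : ℝ} (h0 : 0 ≤ p) (h1 : p ≤ 1) (A : Finset E → Prop) :
    pr F p A ≤ 1 := by
  classical
  unfold pr
  calc _ ≤ ex F p (fun _ => 1) := ex_mono h0 h1 fun S _ => by
        show (if A S then (1 : ℝ) else 0) ≤ 1
        split_ifs <;> norm_num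
    _ = 1 := ex_one _ _

theorem ramp_nonneg (b ε : ℝ) (g : Finset E → ℝ) (S : Finset E) : 0 ≤ ramp b ε g S :=
  le_min zero_le_one (le_max_left _ _)

theorem ramp_le_one (b ε : ℝ) (g : Finset E → ℝ) (S : Finset E) : ramp b ε g S ≤ 1 :=
  min_le_left _ _

theorem ramp_mon {b ε : ℝ} (hε : 0 < ε) {g : Finset E → ℝ} (hg : Mon g) : Mon (ramp b ε g) := by
  intro S T hST
  unfold ramp
  apply min_le_min le_rfl
  apply max_le_max le_rfl
  have := hg S T hST
  gcongr

theorem ramp_lip {b ε : ℝ} (hε : 0 < ε) {g : Finset E → ℝ} {S T : Finset E} (h : g S ≤ g T) :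
    ramp b ε g T - ramp b ε g S ≤ (g T - g S) / ε := by
  unfold ramp
  have h2 : (g S - (b - ε)) / ε ≤ (g T - (b - ε)) / ε := by gcongr
  have h3 : (g T - g S) / ε = (g T - (b - ε)) / ε - (g S - (b - ε)) / ε := by ring
  rw [h3]
  set x := (g S - (b - ε)) / ε
  set y := (g T - (b - ε)) / ε
  rcases le_total 0 x with hx | hx <;> rcases le_total 0 y with hy | hy <;>
    rcases le_total 1 x with hx1 | hx1 <;> rcases le_total 1 y with hy1 | hy1 <;>
    simp [min_eq_right, *] <;> linarith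

theorem ramp_eq_one {b ε : ℝ} (hε : 0 < ε) {g : Finset E → ℝ} {S : Finset E} (h : b ≤ g S) :
    ramp b ε g S = 1 := by
  unfold ramp
  have : 1 ≤ (g S - (b - ε)) / ε := by rw [le_div_iff₀ hε]; linarith
  rw [max_eq_right (by linarith), min_eq_left this]

theorem ramp_eq_zero {b ε : ℝ} (hε : 0 < ε) {g : Finset E → ℝ} {S : Finset E}
    (h : g S ≤ b - ε) : ramp b ε g S = 0 := by
  unfold ramp
  have : (g S - (b - ε)) / ε ≤ 0 := div_nonpos_of_nonpos_of_nonneg (by linarith) hε.le
  rw [max_eq_left this, min_eq_right zero_le_one]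

/-- Variance of a function with values in `[0,1]` against the mass at the two ends. -/
theorem vr_ge {F : Finset E} {p : ℝ} (h0 : 0 ≤ p) (h1 : p ≤ 1) (h : Finset E → ℝ)
    (A B : Finset E → Prop) (hA : ∀ S, A S → h S = 1) (hB : ∀ S, B S → h S = 0) :
    pr F p A * pr F p B ≤ vr F p h := by
  classical
  set c := ex F p h with hc
  have e1 : vr F p h = ex F p (fun S => (h S - c) ^ 2) := by
    unfold vr
    have : ex F p (fun S => (h S - c) ^ 2) =
        ex F p (fun S => h S ^ 2) - 2 * c * ex F p h + c ^ 2 := by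
      rw [← ex_smul, ← ex_sub]
      have h2 := ex_add F p (fun S => h S ^ 2 - 2 * c * h S) (fun _ => c ^ 2)
      rw [ex_const] at h2
      rw [← h2]
      exact ex_congr fun S _ => by ring
    rw [this, ← hc]; ring
  have e2 : pr F p A * (1 - c) ^ 2 + pr F p B * c ^ 2 ≤ ex F p (fun S => (h S - c) ^ 2) := by
    unfold pr
    rw [mul_comm, mul_comm _ (c ^ 2), ← ex_smul, ← ex_smul, ← ex_add]
    apply ex_mono h0 h1
    intro S _
    show (1 - c) ^ 2 * (if A S then (1 : ℝ) else 0) + c ^ 2 * (if B S then (1 : ℝ) else 0) ≤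
      (h S - c) ^ 2
    by_cases hAS : A S
    · by_cases hBS : B S
      · have := hA S hAS
        have := hB S hBS
        linarith
      · rw [if_pos hAS, if_neg hBS, hA S hAS]; linarith
    · by_cases hBS : B S
      · rw [if_neg hAS, if_pos hBS, hB S hBS]; nlinarith
      · rw [if_neg hAS, if_neg hBS]; nlinarith [sq_nonneg (h S - c)]
  have e3 : pr F p A + pr F p B ≤ 1 := by
    unfold pr
    rw [← ex_add]
    calc _ ≤ ex F p (fun _ => 1) := ex_mono h0 h1 fun S _ => by
          show (if A S then (1 : ℝ) else 0) + (if B S then (1 : ℝ) else 0) ≤ 1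
          by_cases hAS : A S
          · by_cases hBS : B S
            · have := hA S hAS
              have := hB S hBS
              linarith
            · rw [if_pos hAS, if_neg hBS]; norm_num
          · rw [if_neg hAS]; split_ifs <;> norm_num
      _ = 1 := ex_one _ _
  have a0 := pr_nonneg (F := F) h0 h1 A
  have b0 := pr_nonneg (F := F) h0 h1 B
  rw [e1]
  refine le_trans ?_ e2
  generalize pr F p A = α at *
  generalize pr F p B = β at *
  have e4 : (α * (1 - c) ^ 2 + β * c ^ 2) * (α + β) = α * β + (α * (1 - c) - β * c) ^ 2 := by ring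
  have e5 : 0 ≤ α * (1 - c) ^ 2 + β * c ^ 2 := by positivity
  nlinarith [sq_nonneg (α * (1 - c) - β * c)]

theorem vr_le_one {F : Finset E} {p : ℝ} (h0 : 0 ≤ p) (h1 : p ≤ 1) (h : Finset E → ℝ)
    (hh0 : ∀ S, 0 ≤ h S) (hh1 : ∀ S, h S ≤ 1) : vr F p h ≤ 1 := by
  unfold vr
  have : ex F p (fun S => h S ^ 2) ≤ ex F p (fun _ => 1) := ex_mono h0 h1 fun S _ => by
    have := hh0 S
    have := hh1 S
    show h S ^ 2 ≤ 1
    nlinarith
  rw [ex_one] at this
  have := sq_nonneg (ex F p h)
  linarith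

theorem pr_mono_event {F : Finset E} {p : ℝ} (h0 : 0 ≤ p) (h1 : p ≤ 1)
    {A B : Finset E → Prop} (h : ∀ S, A S → B S) : pr F p A ≤ pr F p B := by
  classical
  unfold pr
  apply ex_mono h0 h1
  intro S _
  show (if A S then (1 : ℝ) else 0) ≤ if B S then (1 : ℝ) else 0
  by_cases hA : A S
  · rw [if_pos hA, if_pos (h S hA)]
  · rw [if_neg hA]; split_ifs <;> norm_num

theorem pr_not {F : Finset E} {p : ℝ} (A : Finset E → Prop) :
    pr F p (fun S => ¬ A S) = 1 - pr F p A := by
  classical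
  unfold pr
  have h := ex_sub F p (fun _ => 1) (fun S => if A S then (1 : ℝ) else 0)
  rw [ex_one] at h
  rw [← h]
  apply ex_congr
  intro S _
  by_cases hA : A S <;> simp [hA]

theorem pr_up {F : Finset E} {p q : ℝ} (hp : 0 ≤ p) (hpq : p ≤ q) (hq : q ≤ 1)
    {A : Finset E → Prop} (h : ∀ S T, S ⊆ T → A S → A T) : pr F p A ≤ pr F q A := by
  classical
  unfold pr
  apply Mon.ex_le _ F hp hpq hq
  intro S T hST
  show (if A S then (1 : ℝ) else 0) ≤ if A T then (1 : ℝ) else 0
  by_cases hA : A S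
  · rw [if_pos hA, if_pos (h S T hST hA)]
  · rw [if_neg hA]; split_ifs <;> norm_num

/-- One round of the sharp threshold argument. -/
theorem thr_one {δ ε κ p1 p2 M T t b : ℝ} (hδ : 0 < δ) (h1 : δ ≤ p1) (h12 : p1 < p2)
    (h2 : p2 ≤ 1 - δ) (hε : 0 < ε) (hM : 0 < M) (hT : 0 < T) (ht : 0 < t)
    (htT : Real.exp (t - 1) * T ≤ ε * M)
    (F : Finset E) (g : Finset E → ℝ) (hg : Mon g) (A A' : ℝ → ℝ)
    (hA : ∀ p ∈ Set.Icc p1 p2, HasDerivAt A (A' p) p) (hAκ : A p2 - A p1 ≤ κ)
    (hA0 : ∀ p ∈ Set.Ioo p1 p2, 0 ≤ A' p)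
    (hinf : ∀ p ∈ Set.Ioo p1 p2, ∀ e ∈ F, ex F p (dd e g) ≤ A' p / M) :
    pr F p1 (fun S => b ≤ g S) * pr F p2 (fun S => g S ≤ b - ε) ≤
      ((2 / δ + 1) / t * (ex F p2 (ramp b ε g) - ex F p1 (ramp b ε g)) + κ / T) / (p2 - p1) := by
  set h := ramp b ε g with hh
  have hmon : Mon h := ramp_mon hε hg
  -- pointwise variance bound
  have key : ∀ p ∈ Set.Ioo p1 p2, 0 ≤ A' p → vr F p h ≤
      (2 / δ + 1) / t * (∑ e ∈ F, ex F p (dd e h)) + A' p / T := by
    intro p hp hA'
    have hp0 : 0 ≤ p := by linarith [hp.1]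
    have hp1 : p ≤ 1 := by linarith [hp.2]
    have hH : 0 ≤ ∑ e ∈ F, ex F p (dd e h) :=
      Finset.sum_nonneg fun e _ => ex_nonneg hp0 hp1 fun S _ => hmon.dd_nonneg e S
    rcases le_or_gt (A' p) T with hc | hc
    · have fs := falik_samorodnitsky hδ (by linarith [hp.1] : δ ≤ p)
        (by linarith [hp.2] : p ≤ 1 - δ) F h t
      have s1 : ∑ e ∈ F, ex F p (fun S => dd e h S ^ 2) ≤ ∑ e ∈ F, ex F p (dd e h) := by
        apply Finset.sum_le_sum
        intro e _
        apply ex_mono hp0 hp1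
        intro S _
        have u1 := hmon.dd_nonneg e S
        have u2 : dd e h S ≤ 1 := by
          unfold dd
          have := ramp_le_one b ε g (insert e S)
          have := ramp_nonneg b ε g (S.erase e)
          linarith
        nlinarith
      have s2 : ∑ e ∈ F, (ex F p (fun S => |dd e h S|)) ^ 2 ≤
          T / (ε * M) * ∑ e ∈ F, ex F p (dd e h) := by
        rw [Finset.mul_sum]
        apply Finset.sum_le_sum
        intro e he
        have v1 : ex F p (fun S => |dd e h S|) = ex F p (dd e h) :=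
          ex_congr fun S _ => abs_of_nonneg (hmon.dd_nonneg e S)
        have v2 : 0 ≤ ex F p (dd e h) := ex_nonneg hp0 hp1 fun S _ => hmon.dd_nonneg e S
        have v3 : ex F p (dd e h) ≤ T / (ε * M) := by
          calc ex F p (dd e h) ≤ ex F p (fun S => (1 / ε) * dd e g S) := by
                apply ex_mono hp0 hp1
                intro S _
                unfold dd
                have := ramp_lip (b := b) hε (hg (S.erase e) (insert e S)
                  ((Finset.erase_subset _ _).trans (Finset.subset_insert _ _)))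
                rw [hh]
                calc _ ≤ (g (insert e S) - g (S.erase e)) / ε := this
                  _ = _ := by ring
            _ = (1 / ε) * ex F p (dd e g) := ex_smul _ _ _ _
            _ ≤ (1 / ε) * (A' p / M) := mul_le_mul_of_nonneg_left (hinf p hp e he) (by positivity)
            _ ≤ (1 / ε) * (T / M) := by gcongr
            _ = T / (ε * M) := by field_simp
        rw [v1, pow_two]
        exact mul_le_mul_of_nonneg_right v3 v2
      have s3 : Real.exp (t - 1) * ∑ e ∈ F, (ex F p (fun S => |dd e h S|)) ^ 2 ≤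
          ∑ e ∈ F, ex F p (dd e h) := by
        calc _ ≤ Real.exp (t - 1) * (T / (ε * M) * ∑ e ∈ F, ex F p (dd e h)) :=
              mul_le_mul_of_nonneg_left s2 (Real.exp_pos _).le
          _ = (Real.exp (t - 1) * T / (ε * M)) * ∑ e ∈ F, ex F p (dd e h) := by ring
          _ ≤ 1 * ∑ e ∈ F, ex F p (dd e h) := by
              apply mul_le_mul_of_nonneg_right _ hH
              rw [div_le_one (by positivity)]
              exact htT
          _ = _ := one_mul _
      have s4 : t * vr F p h ≤ (2 / δ + 1) * ∑ e ∈ F, ex F p (dd e h) := by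
        have := mul_le_mul_of_nonneg_left s1 (by positivity : (0 : ℝ) ≤ 2 / δ)
        linarith
      have s5 : vr F p h ≤ (2 / δ + 1) / t * ∑ e ∈ F, ex F p (dd e h) := by
        rw [div_mul_eq_mul_div, le_div_iff₀ ht]
        linarith
      have : 0 ≤ A' p / T := by positivity
      linarith
    · have u1 : vr F p h ≤ 1 := vr_le_one hp0 hp1 h (ramp_nonneg b ε g) (ramp_le_one b ε g)
      have u2 : 1 ≤ A' p / T := by rw [le_div_iff₀ hT]; linarith
      have u3 : 0 ≤ (2 / δ + 1) / t * ∑ e ∈ F, ex F p (dd e h) := by positivity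
      linarith
  -- mean value theorem
  set Q : ℝ → ℝ := fun p => (2 / δ + 1) / t * ex F p h + A p / T with hQ
  have hQd : ∀ p ∈ Set.Icc p1 p2, HasDerivAt Q
      ((2 / δ + 1) / t * (∑ e ∈ F, ex F p (dd e h)) + A' p / T) p := by
    intro p hp
    exact ((russo F h p).const_mul _).add ((hA p hp).div_const _)
  obtain ⟨ξ, hξ, hξ2⟩ := exists_hasDerivAt_eq_slope Q
    (fun p => (2 / δ + 1) / t * (∑ e ∈ F, ex F p (dd e h)) + A' p / T) h12
    (fun p hp => (hQd p hp).continuousAt.continuousWithinAt)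
    (fun p hp => hQd p (Set.Ioo_subset_Icc_self hp))
  have hξ0 : 0 ≤ ξ := by linarith [hξ.1]
  have hξ1 : ξ ≤ 1 := by linarith [hξ.2]
  have hp21 : 0 < p2 - p1 := by linarith
  -- nonnegativity of A' at ξ : either F empty or from hinf
  have hfin : vr F ξ h ≤ (Q p2 - Q p1) / (p2 - p1) := by
    rw [← hξ2]
    exact key ξ hξ (hA0 ξ hξ)
  have hlow := vr_ge (F := F) hξ0 hξ1 h (fun S => b ≤ g S) (fun S => g S ≤ b - ε)
    (fun S hS => ramp_eq_one hε hS) (fun S hS => ramp_eq_zero hε hS)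
  have m1 : pr F p1 (fun S => b ≤ g S) ≤ pr F ξ (fun S => b ≤ g S) :=
    pr_up (by linarith) hξ.1.le hξ1 fun S T hST hS => hS.trans (hg S T hST)
  have m2 : pr F p2 (fun S => g S ≤ b - ε) ≤ pr F ξ (fun S => g S ≤ b - ε) := by
    have n1 := pr_not (F := F) (p := p2) (fun S => ¬ (g S ≤ b - ε))
    have n2 := pr_not (F := F) (p := ξ) (fun S => ¬ (g S ≤ b - ε))
    simp only [not_not] at n1 n2
    rw [n1, n2]
    have := pr_up (F := F) hξ0 hξ.2.le (by linarith : p2 ≤ 1)
      (A := fun S => ¬ (g S ≤ b - ε)) fun S T hST hS hT => hS ((hg S T hST).trans hT)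
    linarith
  have m3 : 0 ≤ pr F p1 (fun S => b ≤ g S) := pr_nonneg (by linarith) (by linarith) _
  have m4 : 0 ≤ pr F p2 (fun S => g S ≤ b - ε) := pr_nonneg (by linarith) (by linarith) _
  calc _ ≤ pr F ξ (fun S => b ≤ g S) * pr F ξ (fun S => g S ≤ b - ε) :=
        mul_le_mul m1 m2 m4 (m3.trans m1)
    _ ≤ vr F ξ h := hlow
    _ ≤ (Q p2 - Q p1) / (p2 - p1) := hfin
    _ ≤ _ := by
      apply div_le_div_of_nonneg_right _ hp21.le
      rw [hQ]
      have : (A p2 - A p1) / T ≤ κ / T := div_le_div_of_nonneg_right hAκ hT.le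
      have e1 : (A p2 - A p1) / T = A p2 / T - A p1 / T := sub_div _ _ _
      show (2 / δ + 1) / t * ex F p2 h + A p2 / T - ((2 / δ + 1) / t * ex F p1 h + A p1 / T) ≤ _
      rw [e1] at this
      linarith

theorem log_growth {ε : ℝ} (hε : 0 < ε) : ∃ M₀ : ℝ, 1 < M₀ ∧ ∀ M, M₀ ≤ M →
    0 < Real.log M ∧ Real.log M / 4 ≤ 1 + Real.log (ε * Real.sqrt M) ∧
    1 / Real.sqrt M ≤ 1 / (Real.log M) ^ 2 ∧ 0 < 1 + Real.log (ε * Real.sqrt M) := by
  have h1 : Filter.Tendsto (fun M : ℝ => Real.log M / 4) Filter.atTop Filter.atTop :=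
    Real.tendsto_log_atTop.atTop_div_const (by norm_num)
  have e1 : ∀ᶠ M : ℝ in Filter.atTop, - (1 + Real.log ε) ≤ Real.log M / 4 :=
    h1.eventually_ge_atTop _
  have e2 : ∀ᶠ M : ℝ in Filter.atTop, (Real.log M) ^ 2 ≤ Real.sqrt M := by
    have h2 : (fun M : ℝ => Real.log M ^ (2 : ℝ)) =o[Filter.atTop] fun M => M ^ (1 / 2 : ℝ) :=
      isLittleO_log_rpow_rpow_atTop 2 (by norm_num)
    have h3 := h2.bound (c := 1) (by norm_num)
    filter_upwards [h3, Filter.eventually_ge_atTop 1] with M hM hM1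
    have h4 : 0 ≤ Real.log M := Real.log_nonneg hM1
    rw [Real.sqrt_eq_rpow]
    have h5 : ‖Real.log M ^ (2 : ℝ)‖ = (Real.log M) ^ 2 := by
      rw [Real.norm_of_nonneg (by positivity)]; norm_cast
    rw [h5, one_mul, Real.norm_of_nonneg (by positivity)] at hM
    exact hM
  obtain ⟨M₀, hM₀⟩ := Filter.eventually_atTop.mp (e1.and e2)
  refine ⟨max M₀ 2, by simp, fun M hM => ?_⟩
  have hM2 : 2 ≤ M := (le_max_right _ _).trans hM
  obtain ⟨k1, k2⟩ := hM₀ M ((le_max_left _ _).trans hM)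
  have hlog : 0 < Real.log M := Real.log_pos (by linarith)
  have hs : 0 < Real.sqrt M := Real.sqrt_pos.mpr (by linarith)
  have h6 : Real.log (ε * Real.sqrt M) = Real.log ε + Real.log M / 2 := by
    rw [Real.log_mul hε.ne' hs.ne', Real.log_sqrt (by linarith)]
  have h7 : Real.log M / 4 ≤ 1 + Real.log (ε * Real.sqrt M) := by rw [h6]; linarith
  refine ⟨hlog, h7, ?_, by linarith⟩
  exact one_div_le_one_div_of_le (by positivity) k2

/-- **Two rounds of the sharp threshold argument.** -/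
theorem thr_two {δ ε κ s c₁ : ℝ} (hδ : 0 < δ) (hε : 0 < ε) (hκ : 0 < κ) (hs : 0 < s)
    (hc : 0 < c₁) :
    ∃ C M₀ : ℝ, 0 < C ∧ 1 < M₀ ∧ ∀ (F : Finset E) (g : Finset E → ℝ) (A A' : ℝ → ℝ) (M p b : ℝ),
      M₀ ≤ M → Mon g → δ ≤ p → p + 2 * s ≤ 1 - δ →
      (∀ q ∈ Set.Icc p (p + 2 * s), HasDerivAt A (A' q) q) →
      (∀ q ∈ Set.Icc p (p + 2 * s), 0 ≤ A q ∧ A q ≤ κ) →
      (∀ q ∈ Set.Icc p (p + 2 * s), 0 ≤ A' q) →
      (∀ q ∈ Set.Icc p (p + 2 * s), ∀ e ∈ F, ex F q (dd e g) ≤ A' q / M) →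
      c₁ ≤ pr F p (fun S => b ≤ g S) →
      pr F (p + 2 * s) (fun S => g S ≤ b - 2 * ε) ≤ C / (Real.log M) ^ 2 := by
  obtain ⟨M₁, hM₁, hM₁'⟩ := log_growth hε
  -- constant of the first round
  set D : ℝ := 2 / δ + 1 with hD
  have hD0 : 0 < D := by positivity
  set C₁ : ℝ := (4 * D + κ) / (s * c₁) with hC₁
  have hC₁0 : 0 < C₁ := by positivity
  -- choose M₀ so that the first round gives at most 1/2
  have hev : ∀ᶠ M : ℝ in Filter.atTop, 2 * C₁ + 1 ≤ Real.log M :=
    Real.tendsto_log_atTop.eventually_ge_atTop _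
  obtain ⟨M₂, hM₂⟩ := Filter.eventually_atTop.mp hev
  refine ⟨2 * (4 * D * C₁ + κ) / s, max M₁ M₂, by positivity, lt_of_lt_of_le hM₁ (le_max_left _ _),
    fun F g A A' M p b hM hg hp hp2 hA hAκ hA0 hinf hc₁ => ?_⟩
  obtain ⟨l1, l2, l3, l4⟩ := hM₁' M ((le_max_left _ _).trans hM)
  have l5 := hM₂ M ((le_max_right _ _).trans hM)
  have hMpos : 0 < M := by linarith [(le_max_left M₁ M₂).trans hM]
  have hsq : 0 < Real.sqrt M := Real.sqrt_pos.mpr hMpos
  set t : ℝ := 1 + Real.log (ε * Real.sqrt M) with ht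
  have htT : Real.exp (t - 1) * Real.sqrt M ≤ ε * M := by
    have : t - 1 = Real.log (ε * Real.sqrt M) := by rw [ht]; ring
    rw [this, Real.exp_log (by positivity), mul_assoc, Real.mul_self_sqrt hMpos.le]
  have hlog1 : 1 ≤ Real.log M := by linarith
  have hp0 : 0 ≤ p := by linarith
  -- bound for 1/t
  have ht4 : D / t ≤ 4 * D / Real.log M := by
    rw [div_le_div_iff₀ l4 l1]
    nlinarith
  have hκT : κ / Real.sqrt M ≤ κ / (Real.log M) ^ 2 := by
    have := mul_le_mul_of_nonneg_left l3 hκ.le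
    rw [mul_one_div, mul_one_div] at this
    exact this
  have hκT' : κ / (Real.log M) ^ 2 ≤ κ / Real.log M := by
    apply div_le_div_of_nonneg_left hκ.le l1
    nlinarith
  -- first round
  have r1 := thr_one (δ := δ) (ε := ε) (κ := κ) (p1 := p) (p2 := p + s) (M := M)
    (T := Real.sqrt M) (t := t) (b := b) hδ hp (by linarith) (by linarith) hε hMpos hsq l4 htT F g
    hg A A' (fun q hq => hA q ⟨hq.1, by linarith [hq.2]⟩)
    (by
      have a1 := hAκ (p + s) ⟨by linarith, by linarith⟩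
      have a2 := hAκ p ⟨le_refl _, by linarith⟩
      linarith)
    (fun q hq => hA0 q ⟨hq.1.le, by linarith [hq.2]⟩)
    (fun q hq e he => hinf q ⟨hq.1.le, by linarith [hq.2]⟩ e he)
  have hps : p + s - p = s := by ring
  rw [hps] at r1
  have H1 : ex F (p + s) (ramp b ε g) ≤ 1 := by
    calc _ ≤ ex F (p + s) (fun _ => 1) :=
          ex_mono (by linarith) (by linarith) fun S _ => ramp_le_one b ε g S
      _ = 1 := ex_one _ _
  have H0 : 0 ≤ ex F p (ramp b ε g) :=
    ex_nonneg hp0 (by linarith) fun S _ => ramp_nonneg b ε g S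
  have hDt : 0 < D / t := by positivity
  have n1 : 0 ≤ pr F (p + s) (fun S => g S ≤ b - ε) := pr_nonneg (by linarith) (by linarith) _
  have r1' : pr F (p + s) (fun S => g S ≤ b - ε) ≤ C₁ / Real.log M := by
    have u1 : D / t * (ex F (p + s) (ramp b ε g) - ex F p (ramp b ε g)) ≤ D / t := by
      nlinarith
    have u2 : c₁ * pr F (p + s) (fun S => g S ≤ b - ε) ≤
        (4 * D / Real.log M + κ / Real.log M) / s := by
      calc _ ≤ pr F p (fun S => b ≤ g S) * pr F (p + s) (fun S => g S ≤ b - ε) :=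
            mul_le_mul_of_nonneg_right hc₁ n1
        _ ≤ _ := r1
        _ ≤ _ := by
          apply div_le_div_of_nonneg_right _ hs.le
          linarith
    rw [hC₁, div_div, le_div_iff₀ (by positivity)]
    have u3 : (4 * D / Real.log M + κ / Real.log M) / s = (4 * D + κ) / (s * Real.log M) := by
      field_simp
    rw [u3, le_div_iff₀ (by positivity)] at u2
    linarith
  have r1h : pr F (p + s) (fun S => g S ≤ b - ε) ≤ 1 / 2 := by
    refine r1'.trans ?_
    rw [div_le_iff₀ l1]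
    linarith
  -- second round, level b - ε
  have q1 : 1 - pr F (p + s) (fun S => g S ≤ b - ε) ≤ pr F (p + s) (fun S => b - ε ≤ g S) := by
    rw [← pr_not]
    exact pr_mono_event (by linarith) (by linarith) fun S hS => (not_le.mp hS).le
  have r2 := thr_one (δ := δ) (ε := ε) (κ := κ) (p1 := p + s) (p2 := p + 2 * s) (M := M)
    (T := Real.sqrt M) (t := t) (b := b - ε) hδ (by linarith) (by linarith) hp2 hε hMpos hsq l4
    htT F g hg A A' (fun q hq => hA q ⟨by linarith [hq.1], hq.2⟩)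
    (by
      have a1 := hAκ (p + 2 * s) ⟨by linarith, le_refl _⟩
      have a2 := hAκ (p + s) ⟨by linarith, by linarith⟩
      linarith)
    (fun q hq => hA0 q ⟨by linarith [hq.1], hq.2.le⟩)
    (fun q hq e he => hinf q ⟨by linarith [hq.1], hq.2.le⟩ e he)
  have hps2 : p + 2 * s - (p + s) = s := by ring
  have hb2 : b - ε - ε = b - 2 * ε := by ring
  rw [hps2, hb2] at r2
  have H2 : ex F (p + 2 * s) (ramp (b - ε) ε g) ≤ 1 := by
    calc _ ≤ ex F (p + 2 * s) (fun _ => 1) :=
          ex_mono (by linarith) (by linarith) fun S _ => ramp_le_one (b - ε) ε g S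
      _ = 1 := ex_one _ _
  have H3 : 1 - C₁ / Real.log M ≤ ex F (p + s) (ramp (b - ε) ε g) := by
    have : pr F (p + s) (fun S => b - ε ≤ g S) ≤ ex F (p + s) (ramp (b - ε) ε g) := by
      classical
      unfold pr
      apply ex_mono (by linarith) (by linarith)
      intro S _
      show (if b - ε ≤ g S then (1 : ℝ) else 0) ≤ ramp (b - ε) ε g S
      by_cases h : b - ε ≤ g S
      · rw [if_pos h, ramp_eq_one hε h]
      · rw [if_neg h]; exact ramp_nonneg _ _ _ _
    linarith
  have n2 : 0 ≤ pr F (p + 2 * s) (fun S => g S ≤ b - 2 * ε) :=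
    pr_nonneg (by linarith) (by linarith) _
  have u1 : D / t * (ex F (p + 2 * s) (ramp (b - ε) ε g) - ex F (p + s) (ramp (b - ε) ε g)) ≤
      4 * D * C₁ / (Real.log M) ^ 2 := by
    calc _ ≤ D / t * (C₁ / Real.log M) :=
          mul_le_mul_of_nonneg_left (by linarith) hDt.le
      _ ≤ 4 * D / Real.log M * (C₁ / Real.log M) :=
          mul_le_mul_of_nonneg_right ht4 (by positivity)
      _ = _ := by field_simp
  have u2 : (1 / 2) * pr F (p + 2 * s) (fun S => g S ≤ b - 2 * ε) ≤
      (4 * D * C₁ / (Real.log M) ^ 2 + κ / (Real.log M) ^ 2) / s := by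
    calc _ ≤ pr F (p + s) (fun S => b - ε ≤ g S) *
          pr F (p + 2 * s) (fun S => g S ≤ b - 2 * ε) :=
          mul_le_mul_of_nonneg_right (by linarith) n2
      _ ≤ _ := r2
      _ ≤ _ := by
        apply div_le_div_of_nonneg_right _ hs.le
        linarith
  have u3 : (4 * D * C₁ / (Real.log M) ^ 2 + κ / (Real.log M) ^ 2) / s =
      (1 / 2) * (2 * (4 * D * C₁ + κ) / s / (Real.log M) ^ 2) := by
    field_simp
  rw [u3] at u2
  linarith

end Pool.Agent.H47.QCC
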