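import Mathlib
import Pool.Agent.H47.QCC.Thr

/-!
Sprinkling, variance of functions with bounded increments, expectation of a maximum.
-/

namespace Pool.Agent.H47.QCC

open Finset

variable {E : Type*} [DecidableEq E]

/-- Indicator of a proposition. -/
noncomputable def ind (P : Prop) : ℝ := @ite ℝ P (Classical.propDecidable P) 1 0

theorem ind_pos {P : Prop} (h : P) : ind P = 1 := by unfold ind; rw [if_pos h]

theorem ind_neg {P : Prop} (h : ¬ P) : ind P = 0 := by unfold ind; rw [if_neg h]

theorem ind_nonneg (P : Prop) : 0 ≤ ind P := by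
  by_cases h : P
  · rw [ind_pos h]; norm_num
  · rw [ind_neg h]

theorem ind_le_one (P : Prop) : ind P ≤ 1 := by
  by_cases h : P
  · rw [ind_pos h]
  · rw [ind_neg h]; norm_num

theorem ind_mono {P Q : Prop} (h : P → Q) : ind P ≤ ind Q := by
  by_cases hP : P
  · rw [ind_pos hP, ind_pos (h hP)]
  · rw [ind_neg hP]; exact ind_nonneg Q

theorem ind_congr {P Q : Prop} (h : P ↔ Q) : ind P = ind Q :=
  le_antisymm (ind_mono h.mp) (ind_mono h.mpr)

theorem pr_eq (F : Finset E) (p : ℝ) (A : Finset E → Prop) :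
    pr F p A = ex F p (fun S => ind (A S)) := rfl

/-- The union of two independent biased configurations. -/
theorem ex_union (F : Finset E) (p s : ℝ) (f : Finset E → ℝ) :
    ex F (p + s - p * s) f = ex F p (fun S => ex F s (fun T => f (S ∪ T))) := by
  induction F using Finset.induction_on generalizing f with
  | empty => simp [ex_empty]
  | insert e F he ih =>
    rw [ex_insert he, ex_insert he, ih, ih]
    have h1 : ex F p (fun S => ex (insert e F) s (fun T => f (insert e S ∪ T))) =
        ex F p (fun S => ex F s (fun T => f (insert e (S ∪ T)))) := by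
      apply ex_congr
      intro S _
      show ex (insert e F) s (fun T => f (insert e S ∪ T)) = ex F s (fun T => f (insert e (S ∪ T)))
      rw [ex_insert he]
      have a1 : ex F s (fun T => f (insert e S ∪ insert e T)) =
          ex F s (fun T => f (insert e (S ∪ T))) := ex_congr fun T _ => by
        show f (insert e S ∪ insert e T) = f (insert e (S ∪ T))
        congr 1; ext x; simp only [Finset.mem_union, Finset.mem_insert]; tauto
      have a2 : ex F s (fun T => f (insert e S ∪ T.erase e)) =
          ex F s (fun T => f (insert e (S ∪ T))) := ex_congr fun T _ => by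
        show f (insert e S ∪ T.erase e) = f (insert e (S ∪ T))
        congr 1; ext x; simp only [Finset.mem_union, Finset.mem_insert, Finset.mem_erase]; tauto
      rw [a1, a2]; ring
    have h2 : ex F p (fun S => ex (insert e F) s (fun T => f (S.erase e ∪ T))) =
        s * ex F p (fun S => ex F s (fun T => f (insert e (S ∪ T)))) +
        (1 - s) * ex F p (fun S => ex F s (fun T => f ((S ∪ T).erase e))) := by
      rw [← ex_smul, ← ex_smul, ← ex_add]
      apply ex_congr
      intro S _
      show ex (insert e F) s (fun T => f (S.erase e ∪ T)) =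
        s * ex F s (fun T => f (insert e (S ∪ T))) +
        (1 - s) * ex F s (fun T => f ((S ∪ T).erase e))
      rw [ex_insert he]
      have a1 : ex F s (fun T => f (S.erase e ∪ insert e T)) =
          ex F s (fun T => f (insert e (S ∪ T))) := ex_congr fun T _ => by
        show f (S.erase e ∪ insert e T) = f (insert e (S ∪ T))
        congr 1; ext x; simp only [Finset.mem_union, Finset.mem_insert, Finset.mem_erase]; tauto
      have a2 : ex F s (fun T => f (S.erase e ∪ T.erase e)) =
          ex F s (fun T => f ((S ∪ T).erase e)) := ex_congr fun T _ => by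
        show f (S.erase e ∪ T.erase e) = f ((S ∪ T).erase e)
        congr 1; ext x; simp only [Finset.mem_union, Finset.mem_erase]; tauto
      rw [a1, a2]
    rw [h1, h2]
    ring

/-- Probability that given bits are open. -/
theorem ex_subset {F T₀ : Finset E} (h : T₀ ⊆ F) (s : ℝ) :
    pr F s (fun T => T₀ ⊆ T) = s ^ T₀.card := by
  induction F using Finset.induction_on generalizing T₀ with
  | empty =>
    have : T₀ = ∅ := Finset.subset_empty.mp h
    subst this
    simp [pr_eq, ex_empty, ind_pos]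
  | insert e F he ih =>
    rw [pr_eq, ex_insert he]
    by_cases heT : e ∈ T₀
    · have h0 : T₀.erase e ⊆ F := fun x hx => by
        rcases Finset.mem_insert.mp (h (Finset.mem_of_mem_erase hx)) with h1 | h1
        · exact absurd h1 (Finset.ne_of_mem_erase hx)
        · exact h1
      have h1 : ex F s (fun S => ind (T₀ ⊆ insert e S)) =
          pr F s (fun T => T₀.erase e ⊆ T) := ex_congr fun S _ =>
        ind_congr Finset.subset_insert_iff
      have h2 : ex F s (fun S => ind (T₀ ⊆ S.erase e)) = 0 := by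
        have : ex F s (fun S => ind (T₀ ⊆ S.erase e)) =
            ex F s (fun _ => 0) := ex_congr fun S _ => by
          apply ind_neg
          intro h3
          exact Finset.notMem_erase e S (h3 heT)
        rw [this, ex_const]
      rw [h1, h2, ih h0, Finset.card_erase_of_mem heT]
      have : 1 ≤ T₀.card := Finset.card_pos.mpr ⟨e, heT⟩
      rw [mul_zero, add_zero, ← pow_succ', Nat.sub_add_cancel this]
    · have h0 : T₀ ⊆ F := fun x hx => by
        rcases Finset.mem_insert.mp (h hx) with h1 | h1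
        · exact absurd (h1 ▸ hx) heT
        · exact h1
      have h1 : ex F s (fun S => ind (T₀ ⊆ insert e S)) =
          pr F s (fun T => T₀ ⊆ T) := ex_congr fun S _ =>
        ind_congr (Finset.subset_insert_iff_of_notMem heT)
      have h2 : ex F s (fun S => ind (T₀ ⊆ S.erase e)) =
          pr F s (fun T => T₀ ⊆ T) := ex_congr fun S hS => by
        have : e ∉ S := fun h3 => he (hS h3)
        show ind (T₀ ⊆ S.erase e) = ind (T₀ ⊆ S)
        rw [Finset.erase_eq_of_notMem this]
      rw [h1, h2, ih h0]; ring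

/-- **Sprinkling.** -/
theorem sprinkle {p s : ℝ} (hp0 : 0 ≤ p) (hp1 : p ≤ 1) (hs0 : 0 ≤ s) (hs1 : s ≤ 1) (F : Finset E)
    (k : ℕ) (A : Finset E → Prop) (hA : ∀ S T, S ⊆ T → A S → A T) :
    s ^ k * pr F p (fun S => ∃ T ⊆ F, T.card ≤ k ∧ A (S ∪ T)) ≤ pr F (p + s - p * s) A := by
  rw [pr_eq, pr_eq, ex_union, ← ex_smul]
  apply ex_mono hp0 hp1
  intro S _
  show s ^ k * ind (∃ T ⊆ F, T.card ≤ k ∧ A (S ∪ T)) ≤ ex F s (fun T => ind (A (S ∪ T)))
  by_cases h : ∃ T ⊆ F, T.card ≤ k ∧ A (S ∪ T)
  · rw [ind_pos h, mul_one]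
    obtain ⟨T₀, hT₀, hk, hAT⟩ := h
    calc s ^ k ≤ s ^ T₀.card := pow_le_pow_of_le_one hs0 hs1 hk
      _ = pr F s (fun T => T₀ ⊆ T) := (ex_subset hT₀ s).symm
      _ ≤ _ := by
        apply ex_mono hs0 hs1
        intro T _
        exact ind_mono fun h1 => hA _ _ (Finset.union_subset_union_right h1) hAT
  · rw [ind_neg h, mul_zero]
    exact ex_nonneg hs0 hs1 fun T _ => ind_nonneg _

/-- Variance of a monotone function with increments at most `lam`. -/
theorem vr_le_lam {p lam : ℝ} (hp0 : 0 ≤ p) (hp1 : p ≤ 1) (F : Finset E) (g : Finset E → ℝ)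
    (hg : Mon g) (hlam : ∀ e S, dd e g S ≤ lam) :
    vr F p g ≤ p * (1 - p) * lam * ∑ e ∈ F, ex F p (dd e g) := by
  have h1 := efron_stein (F := F) hp0 hp1 g
  have h2 : ∑ e ∈ F, ex F p (fun S => dd e g S ^ 2) ≤ lam * ∑ e ∈ F, ex F p (dd e g) := by
    rw [Finset.mul_sum]
    apply Finset.sum_le_sum
    intro e _
    rw [← ex_smul]
    apply ex_mono hp0 hp1
    intro S _
    show dd e g S ^ 2 ≤ lam * dd e g S
    rw [pow_two]
    exact mul_le_mul_of_nonneg_right (hlam e S) (hg.dd_nonneg e S)
  have h3 : 0 ≤ p * (1 - p) := mul_nonneg hp0 (by linarith)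
  calc vr F p g ≤ p * (1 - p) * ∑ e ∈ F, ex F p (fun S => dd e g S ^ 2) := h1
    _ ≤ p * (1 - p) * (lam * ∑ e ∈ F, ex F p (dd e g)) := mul_le_mul_of_nonneg_left h2 h3
    _ = _ := by ring

theorem vr_eq (F : Finset E) (p : ℝ) (g : Finset E → ℝ) :
    vr F p g = ex F p (fun S => (g S - ex F p g) ^ 2) := by
  set c := ex F p g with hc
  unfold vr
  have : ex F p (fun S => (g S - c) ^ 2) =
      ex F p (fun S => g S ^ 2) - 2 * c * ex F p g + c ^ 2 := by
    rw [← ex_smul, ← ex_sub]
    have h2 := ex_add F p (fun S => g S ^ 2 - 2 * c * g S) (fun _ => c ^ 2)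
    rw [ex_const] at h2
    rw [← h2]
    exact ex_congr fun S _ => by ring
  rw [this, ← hc]; ring

/-- Chebyshev. -/
theorem cheb {p : ℝ} (hp0 : 0 ≤ p) (hp1 : p ≤ 1) (F : Finset E) (g : Finset E → ℝ) {a : ℝ}
    (ha : 0 < a) : pr F p (fun S => ex F p g + a ≤ g S) ≤ vr F p g / a ^ 2 := by
  rw [vr_eq, le_div_iff₀ (by positivity), pr_eq, mul_comm, ← ex_smul]
  apply ex_mono hp0 hp1
  intro S _
  show a ^ 2 * ind (ex F p g + a ≤ g S) ≤ (g S - ex F p g) ^ 2
  by_cases h : ex F p g + a ≤ g S
  · rw [ind_pos h]; nlinarith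
  · rw [ind_neg h, mul_zero]; exact sq_nonneg _

/-- Expectation of a maximum of finitely many functions. -/
theorem ex_max_le {ι : Type*} {p : ℝ} (hp0 : 0 ≤ p) (hp1 : p ≤ 1) (F : Finset E) (I : Finset ι)
    (g : ι → Finset E → ℝ) (m : Finset E → ℝ) (a v : ℝ)
    (hm : ∀ S, ∃ i ∈ I, m S ≤ g i S) (ha : ∀ i ∈ I, ex F p (g i) ≤ a)
    (hv : ∀ i ∈ I, vr F p (g i) ≤ v) :
    ex F p m ≤ a + Real.sqrt (I.card * v) := by
  set w : Finset E → ℝ := fun S => Real.sqrt (∑ i ∈ I, (g i S - ex F p (g i)) ^ 2) with hw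
  have h1 : ex F p m ≤ a + ex F p w := by
    have : a + ex F p w = ex F p (fun S => a + w S) := by
      rw [ex_add, ex_const]
    rw [this]
    apply ex_mono hp0 hp1
    intro S _
    obtain ⟨i, hi, hmi⟩ := hm S
    have h2 : g i S - ex F p (g i) ≤ w S := by
      apply Real.le_sqrt_of_sq_le
      exact Finset.single_le_sum (f := fun i => (g i S - ex F p (g i)) ^ 2)
        (fun j _ => sq_nonneg _) hi
    have h3 := ha i hi
    show m S ≤ a + w S
    linarith
  have h2 : ex F p w ≤ Real.sqrt (I.card * v) := by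
    apply Real.le_sqrt_of_sq_le
    calc (ex F p w) ^ 2 ≤ ex F p (fun S => w S ^ 2) := ex_sq_le_sq hp0 hp1 w
      _ = ex F p (fun S => ∑ i ∈ I, (g i S - ex F p (g i)) ^ 2) := ex_congr fun S _ => by
          rw [hw]
          exact Real.sq_sqrt (Finset.sum_nonneg fun i _ => sq_nonneg _)
      _ = ∑ i ∈ I, vr F p (g i) := by
          rw [ex_sum]
          exact Finset.sum_congr rfl fun i _ => (vr_eq F p (g i)).symm
      _ ≤ ∑ i ∈ I, v := Finset.sum_le_sum hv
      _ = I.card * v := by rw [Finset.sum_const, nsmul_eq_mul]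
  linarith

end Pool.Agent.H47.QCC
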