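import Mathlib

/-!
Topology of `ℤ^d` with the sup-norm adjacency: boundaries of connected sets with connected
complement are connected.
-/

namespace Pool.Agent.H47.QCC

open Finset

variable {d : ℕ}

/-- Sup-distance at most one. -/
def Cl (u v : Fin d → ℤ) : Prop := ∀ i, |u i - v i| ≤ 1

theorem Cl.refl (u : Fin d → ℤ) : Cl u u := fun i => by simp

theorem Cl.symm {u v : Fin d → ℤ} (h : Cl u v) : Cl v u := fun i => by
  rw [abs_sub_comm]; exact h i

/-- `a` and `b` are joined by a chain inside `A`. -/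
def Conn (A : Set (Fin d → ℤ)) (a b : Fin d → ℤ) : Prop :=
  Relation.ReflTransGen (fun u v => Cl u v ∧ v ∈ A) a b

/-- `A` is connected. -/
def IsConn (A : Set (Fin d → ℤ)) : Prop := ∀ a ∈ A, ∀ b ∈ A, Conn A a b

/-- Inner boundary. -/
def bdry (D : Set (Fin d → ℤ)) : Set (Fin d → ℤ) := {u | u ∈ D ∧ ∃ w, w ∉ D ∧ Cl u w}

/-- The norm used for the recursion. -/
def nrm (v : Fin d → ℤ) : ℕ := ∑ i, (v i).natAbs

theorem exists_first {v : Fin d → ℤ} (h : v ≠ 0) : ∃ k, v k ≠ 0 ∧ ∀ j < k, v j = 0 := by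
  have : ∃ k, v k ≠ 0 := by
    by_contra hc
    push Not at hc
    exact h (funext hc)
  obtain ⟨k, hk⟩ := WellFounded.has_min (wellFounded_lt (α := Fin d)) {k | v k ≠ 0} this
  exact ⟨k, hk.1, fun j hj => by
    by_contra hc
    exact hk.2 j hc hj⟩

open Classical in
/-- Parent: move the first nonzero coordinate one step towards zero. -/
noncomputable def par (v : Fin d → ℤ) : Fin d → ℤ :=
  if h : v = 0 then 0 else
    Function.update v (exists_first h).choose
      (v (exists_first h).choose - (v (exists_first h).choose).sign)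

theorem par_spec {v : Fin d → ℤ} (h : v ≠ 0) : ∃ k, v k ≠ 0 ∧ (∀ j < k, v j = 0) ∧
    par v = Function.update v k (v k - (v k).sign) := by
  refine ⟨(exists_first h).choose, (exists_first h).choose_spec.1, (exists_first h).choose_spec.2,
    ?_⟩
  unfold par
  rw [dif_neg h]

theorem sign_cases {a : ℤ} (h : a ≠ 0) : (0 < a ∧ a.sign = 1) ∨ (a < 0 ∧ a.sign = -1) := by
  rcases lt_or_gt_of_ne h with h1 | h1
  · exact Or.inr ⟨h1, Int.sign_eq_neg_one_of_neg h1⟩
  · exact Or.inl ⟨h1, Int.sign_eq_one_of_pos h1⟩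

theorem nrm_par {v : Fin d → ℤ} (h : v ≠ 0) : nrm (par v) + 1 = nrm v := by
  obtain ⟨k, hk, -, hp⟩ := par_spec h
  rw [hp]
  unfold nrm
  rw [Fintype.sum_eq_add_sum_compl k, Fintype.sum_eq_add_sum_compl k (fun i => (v i).natAbs)]
  have h1 : ∑ i ∈ ({k} : Finset (Fin d))ᶜ,
      (Function.update v k (v k - (v k).sign) i).natAbs = ∑ i ∈ ({k} : Finset (Fin d))ᶜ,
      (v i).natAbs := by
    apply Finset.sum_congr rfl
    intro i hi
    rw [Finset.mem_compl, Finset.mem_singleton] at hi
    rw [Function.update_of_ne hi]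
  rw [h1, Function.update_self]
  rcases sign_cases hk with ⟨h2, h3⟩ | ⟨h2, h3⟩ <;> rw [h3] <;> omega

theorem cl_par (v : Fin d → ℤ) : Cl (par v) v := by
  by_cases h : v = 0
  · subst h
    unfold par
    rw [dif_pos rfl]
    exact Cl.refl 0
  · obtain ⟨k, hk, -, hp⟩ := par_spec h
    intro i
    rw [hp]
    by_cases hi : i = k
    · subst hi
      rw [Function.update_self]
      rcases sign_cases hk with ⟨h2, h3⟩ | ⟨h2, h3⟩ <;> rw [h3] <;> simp
    · rw [Function.update_of_ne hi]; simp

/-- The key combinatorial fact: one of the two parents is close to the other point. -/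
theorem cl_par_or {u v : Fin d → ℤ} (huv : u ≠ v) (h : Cl u v) :
    (v ≠ 0 ∧ Cl u (par v)) ∨ (u ≠ 0 ∧ Cl v (par u)) := by
  by_cases hv : v = 0
  · subst hv
    refine Or.inr ⟨huv, ?_⟩
    obtain ⟨j, hj, -, hp⟩ := par_spec huv
    intro i
    rw [hp]
    by_cases hi : i = j
    · subst hi
      rw [Function.update_self]
      have h1 := h i
      simp only [Pi.zero_apply, sub_zero] at h1
      rw [abs_le] at h1
      rcases sign_cases hj with ⟨h2, h3⟩ | ⟨h2, h3⟩ <;> rw [h3] <;> rw [abs_le] <;>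
        simp only [Pi.zero_apply] <;> omega
    · rw [Function.update_of_ne hi]; exact h.symm i
  · obtain ⟨k, hk, hk0, hp⟩ := par_spec hv
    by_cases hc : u k = v k + (v k).sign
    · -- u is further out in coordinate k
      have huk : u k ≠ 0 := by
        rcases sign_cases hk with ⟨h2, h3⟩ | ⟨h2, h3⟩ <;> rw [hc, h3] <;> omega
      have hu : u ≠ 0 := fun h0 => huk (by rw [h0]; rfl)
      refine Or.inr ⟨hu, ?_⟩
      obtain ⟨j, hj, hj0, hpj⟩ := par_spec hu
      have hjk : j ≤ k := by
        by_contra hlt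
        exact huk (hj0 k (not_le.mp hlt))
      intro i
      rw [hpj]
      by_cases hi : i = j
      · subst hi
        rw [Function.update_self]
        rcases hjk.eq_or_lt with he | hl
        · subst he
          have hs : (u i).sign = (v i).sign := by
            rcases sign_cases hk with ⟨h2, h3⟩ | ⟨h2, h3⟩ <;>
            rcases sign_cases hj with ⟨h4, h5⟩ | ⟨h4, h5⟩ <;> rw [h3] at hc ⊢ <;> rw [h5] <;> omega
          rw [hs, hc]; simp
        · have hvj : v i = 0 := hk0 i hl
          have h1 := h i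
          rw [hvj, sub_zero, abs_le] at h1
          rw [hvj]
          rcases sign_cases hj with ⟨h2, h3⟩ | ⟨h2, h3⟩ <;> rw [h3] <;> rw [abs_le] <;> omega
      · rw [Function.update_of_ne hi]; exact h.symm i
    · refine Or.inl ⟨hv, ?_⟩
      intro i
      rw [hp]
      by_cases hi : i = k
      · subst hi
        rw [Function.update_self]
        have h1 := h i
        rw [abs_le] at h1
        rcases sign_cases hk with ⟨h2, h3⟩ | ⟨h2, h3⟩ <;> rw [h3] at hc ⊢ <;> rw [abs_le] <;> omega
      · rw [Function.update_of_ne hi]; exact h i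

/-- Closed cochains on the clique complex are exact. -/
theorem exact_of_closed (φ : (Fin d → ℤ) → (Fin d → ℤ) → ℤ)
    (hcl : ∀ u v w, Cl u v → Cl v w → Cl u w → φ u v + φ v w = φ u w) :
    ∃ f : (Fin d → ℤ) → ℤ, ∀ u v, Cl u v → φ u v = f v - f u := by
  have hdiag : ∀ u, φ u u = 0 := fun u => by
    have := hcl u u u (Cl.refl u) (Cl.refl u) (Cl.refl u)
    linarith
  have hanti : ∀ u v, Cl u v → φ u v = - φ v u := fun u v h => by
    have := hcl u v u h h.symm (Cl.refl u)
    rw [hdiag] at this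
    linarith
  set f : (Fin d → ℤ) → ℤ := fun v => ∑ m ∈ Finset.range (nrm v), φ (par^[m + 1] v) (par^[m] v)
    with hf
  have hstep : ∀ v, v ≠ 0 → f v = f (par v) + φ (par v) v := by
    intro v hv
    show ∑ m ∈ Finset.range (nrm v), φ (par^[m + 1] v) (par^[m] v) =
      ∑ m ∈ Finset.range (nrm (par v)), φ (par^[m + 1] (par v)) (par^[m] (par v)) + φ (par v) v
    rw [← nrm_par hv, Finset.sum_range_succ']
    rfl
  refine ⟨f, ?_⟩
  -- strong induction on the sum of the norms
  have main : ∀ n, ∀ u v, nrm u + nrm v ≤ n → Cl u v → φ u v = f v - f u := by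
    intro n
    induction n with
    | zero =>
      intro u v hn h
      have hu : u = 0 := by
        by_contra hc
        have := nrm_par hc
        omega
      have hv : v = 0 := by
        by_contra hc
        have := nrm_par hc
        omega
      rw [hu, hv, hdiag]; ring
    | succ n ih =>
      intro u v hn h
      by_cases huv : u = v
      · subst huv; rw [hdiag]; ring
      · rcases cl_par_or huv h with ⟨hv, hc⟩ | ⟨hu, hc⟩
        · have h1 := hcl u (par v) v hc (cl_par v) h
          have h2 := ih u (par v) (by have := nrm_par hv; omega) hc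
          rw [← h1, h2, hstep v hv]; ring
        · have h1 := hcl v (par u) u hc (cl_par u) h.symm
          have h2 := ih v (par u) (by have := nrm_par hu; omega) hc
          rw [hanti u v h, ← h1, h2, hstep u hu]; ring
  exact fun u v h => main _ u v le_rfl h

theorem Conn.trans {A : Set (Fin d → ℤ)} {a b c : Fin d → ℤ} (h1 : Conn A a b) (h2 : Conn A b c) :
    Conn A a c := Relation.ReflTransGen.trans h1 h2

theorem Conn.mem {A : Set (Fin d → ℤ)} {a b : Fin d → ℤ} (h : Conn A a b) (ha : a ∈ A) : b ∈ A := by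
  induction h with
  | refl => exact ha
  | tail _ h _ => exact h.2

theorem Conn.symm {A : Set (Fin d → ℤ)} {a b : Fin d → ℤ} (ha : a ∈ A) (h : Conn A a b) :
    Conn A b a := by
  induction h with
  | refl => exact Relation.ReflTransGen.refl
  | tail h1 h2 ih =>
    rename_i b c
    have hb : b ∈ A := Conn.mem h1 ha
    exact Relation.ReflTransGen.head ⟨h2.1.symm, hb⟩ ih

theorem Conn.mono {A B : Set (Fin d → ℤ)} (hAB : A ⊆ B) {a b : Fin d → ℤ} (h : Conn A a b) :
    Conn B a b := by
  induction h with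
  | refl => exact Relation.ReflTransGen.refl
  | tail _ h2 ih => exact Relation.ReflTransGen.tail ih ⟨h2.1, hAB h2.2⟩

/-- A function constant along close pairs of `A` is constant on chains. -/
theorem Conn.const {A : Set (Fin d → ℤ)} {f : (Fin d → ℤ) → ℤ}
    (hf : ∀ u ∈ A, ∀ v ∈ A, Cl u v → f u = f v) {a b : Fin d → ℤ} (ha : a ∈ A)
    (h : Conn A a b) : f a = f b := by
  induction h with
  | refl => rfl
  | tail h1 h2 ih => exact ih.trans (hf _ (Conn.mem h1 ha) _ h2.2 h2.1)

/-- **Boundaries are connected.** -/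
theorem bdry_conn {D : Set (Fin d → ℤ)} (hD : IsConn D) (hDc : IsConn Dᶜ) : IsConn (bdry D) := by
  classical
  intro a ha b hb
  by_contra hcon
  -- the component of `a` in the boundary
  set C : Set (Fin d → ℤ) := {u | u ∈ bdry D ∧ Conn (bdry D) a u} with hC
  set φ : (Fin d → ℤ) → (Fin d → ℤ) → ℤ := fun u v =>
    (if u ∈ C ∧ v ∉ D then 1 else 0) - (if v ∈ C ∧ u ∉ D then 1 else 0) with hφ
  have hCD : ∀ u, u ∈ C → u ∈ D := fun u hu => hu.1.1
  -- members of a clique on the D side are all in C or none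
  have hC1 : ∀ u v w, u ∈ C → v ∈ D → w ∉ D → Cl u v → Cl v w → v ∈ C := by
    intro u v w hu hv hw huv hvw
    have hvb : v ∈ bdry D := ⟨hv, w, hw, hvw⟩
    exact ⟨hvb, hu.2.tail ⟨huv, hvb⟩⟩
  have hclosed : ∀ u v w, Cl u v → Cl v w → Cl u w → φ u v + φ v w = φ u w := by
    intro u v w huv hvw huw
    show ((if u ∈ C ∧ v ∉ D then (1 : ℤ) else 0) - (if v ∈ C ∧ u ∉ D then 1 else 0)) +
      ((if v ∈ C ∧ w ∉ D then (1 : ℤ) else 0) - (if w ∈ C ∧ v ∉ D then 1 else 0)) =
      (if u ∈ C ∧ w ∉ D then (1 : ℤ) else 0) - (if w ∈ C ∧ u ∉ D then 1 else 0)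
    by_cases h1 : u ∈ D <;> by_cases h2 : v ∈ D <;> by_cases h3 : w ∈ D
    · simp [h1, h2, h3]
    · have : u ∈ C ↔ v ∈ C := ⟨fun h => hC1 u v w h h2 h3 huv hvw,
        fun h => hC1 v u w h h1 h3 huv.symm huw⟩
      simp only [h1, h2, h3, this]; simp
    · have : u ∈ C ↔ w ∈ C := ⟨fun h => hC1 u w v h h3 h2 huw hvw.symm,
        fun h => hC1 w u v h h1 h2 huw.symm huv⟩
      simp only [h1, h2, h3, this]; simp
    · have hv : v ∉ C := fun h => h2 (hCD v h)
      have hw : w ∉ C := fun h => h3 (hCD w h)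
      simp only [h1, h2, h3, hv, hw]; simp
    · have : v ∈ C ↔ w ∈ C := ⟨fun h => hC1 v w u h h3 h1 hvw huw.symm,
        fun h => hC1 w v u h h2 h1 hvw.symm huv.symm⟩
      simp only [h1, h2, h3, this]; simp
    · have hu : u ∉ C := fun h => h1 (hCD u h)
      have hw : w ∉ C := fun h => h3 (hCD w h)
      simp only [h1, h2, h3, hu, hw]; simp
    · have hu : u ∉ C := fun h => h1 (hCD u h)
      have hv : v ∉ C := fun h => h2 (hCD v h)
      simp only [h1, h2, h3, hu, hv]; simp
    · have hu : u ∉ C := fun h => h1 (hCD u h)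
      have hv : v ∉ C := fun h => h2 (hCD v h)
      have hw : w ∉ C := fun h => h3 (hCD w h)
      simp only [hu, hv, hw]; simp
  obtain ⟨f, hf⟩ := exact_of_closed φ hclosed
  have hfD : ∀ u ∈ D, ∀ v ∈ D, f u = f v := by
    intro u hu v hv
    apply Conn.const _ hu (hD u hu v hv)
    intro x hx y hy hxy
    have h1 := hf x y hxy
    have h2 : φ x y = 0 := by simp [hφ, hx, hy]
    rw [h2] at h1
    linarith
  have hfDc : ∀ u ∈ Dᶜ, ∀ v ∈ Dᶜ, f u = f v := by
    intro u hu v hv
    apply Conn.const _ hu (hDc u hu v hv)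
    intro x hx y hy hxy
    have h1 := hf x y hxy
    have hx' : x ∉ C := fun h => hx (hCD x h)
    have hy' : y ∉ C := fun h => hy (hCD y h)
    have h2 : φ x y = 0 := by simp [hφ, hx', hy']
    rw [h2] at h1
    linarith
  obtain ⟨haD, w, hw, haw⟩ := ha
  obtain ⟨hbD, w', hw', hbw'⟩ := hb
  have haC : a ∈ C := ⟨⟨haD, w, hw, haw⟩, Relation.ReflTransGen.refl⟩
  have hbC : b ∉ C := fun h => hcon h.2
  have e1 : φ a w = 1 := by simp [hφ, haC, hw, haD]
  have e2 : φ b w' = 0 := by simp [hφ, hbC, hbD]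
  have e3 := hf a w haw
  have e4 := hf b w' hbw'
  have e5 := hfD a haD b hbD
  have e6 := hfDc w hw w' hw'
  rw [e1] at e3
  rw [e2] at e4
  linarith

end Pool.Agent.H47.QCC
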